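import Pool.Agent.V8H34.KR.Game

/-!
Sets of `k`-recurrence and commuting transformations: the decay of the twisted averages of `r + 3`
functions, by `r` applications of the Cauchy-Schwarz inequality.
-/

namespace Pool.Agent.V8H34.KR

open Finset MeasureTheory Pool.Agent.Helper406.Rec

/-- number of the coordinates with the phase one -/
def Bc {ι : Type} [Fintype ι] (κ : ι → ZMod 3) : ℕ := (Finset.univ.filter (fun i => κ i = 1)).card

noncomputable def rho : ℕ → ℝ
  | 0 => Real.sqrt (141 / 144)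
  | r + 1 => Real.sqrt ((3 + rho r) / 4)

lemma rho_nonneg (r : ℕ) : 0 ≤ rho r := by
  cases r <;> exact Real.sqrt_nonneg _

lemma rho_lt_one (r : ℕ) : rho r < 1 := by
  induction r with
  | zero =>
    show Real.sqrt (141 / 144) < 1
    rw [Real.sqrt_lt' one_pos]
    norm_num
  | succ r ih =>
    show Real.sqrt ((3 + rho r) / 4) < 1
    rw [Real.sqrt_lt' one_pos]
    linarith

/-- the phase -/
def Th {ι : Type} [Fintype ι] (r : ℕ) (κ : ι → ZMod 3) (t : ι → Fin 3 × Fin 2)
    (τ : Fin r → ι → Fin 2) : ZMod 3 :=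
  ∑ i, κ i * ((∏ l, ((τ l i).val : ZMod 3)) * c4 (t i))

/-- the return time -/
def Nn {ι : Type} [Fintype ι] {r : ℕ} (lam : ι → ℕ) (mu : Fin r → ι → ℕ) (t : ι → Fin 3 × Fin 2)
    (τ : Fin r → ι → Fin 2) : ℕ :=
  ∑ i, sd (t i).1 (t i).2 * lam i + ∑ l, ∑ i, (τ l i).val * mu l i

section dyn
universe u
variable {X : Type u} [MeasurableSpace X] (μ : Measure X) [IsProbabilityMeasure μ] {U : X → X}

omit [IsProbabilityMeasure μ] in
lemma Iv_add {q : ℕ} (f : Fin q → X → ℂ) (M N : ℕ) :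
    Iv μ U f (M + N) = Iv μ U (fun j x => f j (U^[(j : ℕ) * N] x)) M := by
  unfold Iv
  congr 1
  funext x
  apply Finset.prod_congr rfl
  intro j _
  show f j (U^[(j : ℕ) * (M + N)] x) = f j (U^[(j : ℕ) * N] (U^[(j : ℕ) * M] x))
  rw [← Function.iterate_add_apply]
  congr 2
  ring

theorem base (hU : MeasurePreserving U μ μ) (ι : Type) [Fintype ι] [DecidableEq ι]
    (lam : ι → ℕ) (κ : ι → ZMod 3) (f : Fin 3 → X → ℂ)
    (hf : ∀ j, Measurable (f j)) (hb : ∀ j x, ‖f j x‖ ≤ 1) :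
    ‖∑ t : ι → Fin 3 × Fin 2, ps (∑ i, κ i * c4 (t i)) * Iv μ U f (∑ i, sd (t i).1 (t i).2 * lam i)‖
      ≤ (rho 0) ^ (Bc κ) * 6 ^ (Fintype.card ι) := by
  classical
  let p : ι → Prop := fun i => κ i = 1
  let P1 := {a // p a} → Fin 3 × Fin 2
  let P2 := {a // ¬ p a} → Fin 3 × Fin 2
  let e := Equiv.piEquivPiSubtypeProd p (fun _ => Fin 3 × Fin 2)
  have hsplit : ∀ {M : Type} [AddCommMonoid M] (g : ι → M),
      ∑ i, g i = ∑ i : {a // p a}, g i + ∑ i : {a // ¬ p a}, g i := by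
    intro M _ g
    rw [← Finset.sum_subtype (Finset.univ.filter p) (by simp) g,
      ← Finset.sum_subtype (Finset.univ.filter (fun i => ¬ p i)) (by simp) g]
    exact (Finset.sum_filter_add_sum_filter_not _ _ _).symm
  have h1 : ∑ t : ι → Fin 3 × Fin 2,
      ps (∑ i, κ i * c4 (t i)) * Iv μ U f (∑ i, sd (t i).1 (t i).2 * lam i)
      = ∑ t2 : P2, ps (∑ i : {a // ¬ p a}, κ i * c4 (t2 i)) * ∑ t1 : P1,
        ps (∑ i, c4 (t1 i)) * Iv μ U (fun j x => f j (U^[(j : ℕ) *
          ∑ i : {a // ¬ p a}, sd (t2 i).1 (t2 i).2 * lam i] x))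
            (∑ i : {a // p a}, sd (t1 i).1 (t1 i).2 * lam i) := by
    rw [← Equiv.sum_comp e.symm, Fintype.sum_prod_type, Finset.sum_comm]
    apply Finset.sum_congr rfl
    intro t2 _
    rw [Finset.mul_sum]
    apply Finset.sum_congr rfl
    intro t1 _
    have g1 : ∀ i : {a // p a}, e.symm (t1, t2) i = t1 i := by
      intro i
      show (if h : p i then t1 ⟨i, h⟩ else t2 ⟨i, h⟩) = _
      rw [dif_pos i.2]
    have g2 : ∀ i : {a // ¬ p a}, e.symm (t1, t2) i = t2 i := by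
      intro i
      show (if h : p i then t1 ⟨i, h⟩ else t2 ⟨i, h⟩) = _
      rw [dif_neg i.2]
    rw [hsplit (fun i => κ i * c4 (e.symm (t1, t2) i)),
      hsplit (fun i => sd (e.symm (t1, t2) i).1 (e.symm (t1, t2) i).2 * lam i)]
    simp only [g1, g2]
    rw [Iv_add, AddChar.map_add_eq_mul]
    have g3 : ∑ i : {a // p a}, κ i * c4 (t1 i) = ∑ i : {a // p a}, c4 (t1 i) := by
      apply Finset.sum_congr rfl
      intro i _
      rw [i.2, one_mul]
    rw [g3]
    ring
  rw [h1]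
  have h2 : ∀ t2 : P2, ‖∑ t1 : P1,
        ps (∑ i, c4 (t1 i)) * Iv μ U (fun j x => f j (U^[(j : ℕ) *
          ∑ i : {a // ¬ p a}, sd (t2 i).1 (t2 i).2 * lam i] x))
            (∑ i : {a // p a}, sd (t1 i).1 (t1 i).2 * lam i)‖
        ≤ (rho 0 * 6) ^ (Fintype.card {a // p a}) := by
    intro t2
    have g1 := game_ty μ hU {a // p a} (fun i => lam i) (fun j x => f j (U^[(j : ℕ) *
          ∑ i : {a // ¬ p a}, sd (t2 i).1 (t2 i).2 * lam i] x))
          (fun j => meas_comp μ hU (hf j) _) (fun j x => hb j _)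
    have g2 : (rho 0 * 6) ^ 2 = 141 / 4 := by
      show (Real.sqrt (141 / 144) * 6) ^ 2 = _
      rw [mul_pow, Real.sq_sqrt (by norm_num)]
      norm_num
    have g3 : ((rho 0 * 6) ^ (Fintype.card {a // p a})) ^ 2 = (141 / 4) ^ (Fintype.card {a // p a}) := by
      calc ((rho 0 * 6) ^ (Fintype.card {a // p a})) ^ 2
          = ((rho 0 * 6) ^ 2) ^ (Fintype.card {a // p a}) := by
            rw [← pow_mul, ← pow_mul, mul_comm 2]
        _ = _ := by rw [g2]
    rw [← g3] at g1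
    have g4 : 0 ≤ (rho 0 * 6) ^ (Fintype.card {a // p a}) := by
      have := rho_nonneg 0
      positivity
    exact (pow_le_pow_iff_left₀ (norm_nonneg _) g4 two_ne_zero).1 g1
  refine (norm_sum_le _ _).trans ?_
  have h3 : ∀ t2 ∈ (Finset.univ : Finset P2), ‖ps (∑ i : {a // ¬ p a}, κ i * c4 (t2 i)) * ∑ t1 : P1,
        ps (∑ i, c4 (t1 i)) * Iv μ U (fun j x => f j (U^[(j : ℕ) *
          ∑ i : {a // ¬ p a}, sd (t2 i).1 (t2 i).2 * lam i] x))
            (∑ i : {a // p a}, sd (t1 i).1 (t1 i).2 * lam i)‖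
        ≤ (rho 0 * 6) ^ (Fintype.card {a // p a}) := by
    intro t2 _
    rw [norm_mul, ps_norm, one_mul]
    exact h2 t2
  refine (Finset.sum_le_sum h3).trans ?_
  rw [Finset.sum_const, Finset.card_univ, nsmul_eq_mul]
  have h4 : Fintype.card P2 = 6 ^ (Fintype.card {a // ¬ p a}) := by
    rw [Fintype.card_fun, Fintype.card_prod, Fintype.card_fin, Fintype.card_fin]
  have h5 : Fintype.card {a // p a} = Bc κ := by
    unfold Bc
    rw [Fintype.card_subtype]
  have h6 : Fintype.card {a // p a} + Fintype.card {a // ¬ p a} = Fintype.card ι := by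
    rw [← Fintype.card_sum]
    exact Fintype.card_congr (Equiv.sumCompl p)
  rw [h4, ← h6, h5, mul_pow, pow_add]
  push_cast
  apply le_of_eq
  ring

lemma sq_integral_le {g : X → ℝ} {K : ℝ} (hg : Measurable g) (hK : ∀ x, |g x| ≤ K) :
    (∫ x, g x ∂μ) ^ 2 ≤ ∫ x, (g x) ^ 2 ∂μ := by
  set a := ∫ x, g x ∂μ with ha
  have hi1 : Integrable g μ :=
    Integrable.of_bound hg.aestronglyMeasurable K (Filter.Eventually.of_forall hK)
  have hi2 : Integrable (fun x => (g x) ^ 2) μ := by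
    apply Integrable.of_bound (hg.pow_const 2).aestronglyMeasurable (K ^ 2)
    apply Filter.Eventually.of_forall
    intro x
    rw [Real.norm_eq_abs, abs_pow]
    exact pow_le_pow_left₀ (abs_nonneg _) (hK x) 2
  have h1 : 0 ≤ ∫ x, (g x - a) ^ 2 ∂μ := integral_nonneg fun x => sq_nonneg _
  have h2 : ∫ x, (g x - a) ^ 2 ∂μ = ∫ x, (g x) ^ 2 ∂μ - a ^ 2 := by
    have e1 : ∀ x, (g x - a) ^ 2 = (g x) ^ 2 - (2 * a * g x - a ^ 2) := fun x => by ring
    simp only [e1]
    have hi3 : Integrable (fun x => 2 * a * g x) μ := hi1.const_mul _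
    have hi4 : Integrable (fun x => 2 * a * g x - a ^ 2) μ := hi3.sub (integrable_const _)
    rw [integral_sub hi2 hi4, integral_sub hi3 (integrable_const _), integral_const_mul, ← ha]
    simp
    ring
  linarith

theorem cs_step {W Y : Type} [Fintype W] [Fintype Y] (c : Y → W → ℂ) (f0 : X → ℂ)
    (E : Y → W → X → ℂ) (J : Y → Y → W → ℂ) (hc : ∀ y w, ‖c y w‖ ≤ 1) (hf0 : Measurable f0)
    (hb0 : ∀ x, ‖f0 x‖ ≤ 1) (hE : ∀ y w, Measurable (E y w)) (hbE : ∀ y w x, ‖E y w x‖ ≤ 1)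
    (hJ : ∀ y y' w, ∫ x, E y w x * (starRingEnd ℂ) (E y' w x) ∂μ = J y y' w) :
    ‖∑ w, ∑ y, c y w * ∫ x, f0 x * E y w x ∂μ‖ ^ 2 ≤
      (Fintype.card W : ℝ) * ∑ y, ∑ y', ‖∑ w, c y w * (starRingEnd ℂ) (c y' w) * J y y' w‖ := by
  classical
  set R : W → X → ℂ := fun w x => ∑ y, c y w * E y w x with hR
  have hRm : ∀ w, Measurable (R w) := fun w =>
    Finset.measurable_sum _ fun y _ => (hE y w).const_mul _
  have hRb : ∀ w x, ‖R w x‖ ≤ (Fintype.card Y : ℝ) := by
    intro w x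
    refine (norm_sum_le _ _).trans ?_
    have : ∀ y ∈ (Finset.univ : Finset Y), ‖c y w * E y w x‖ ≤ 1 := by
      intro y _
      rw [norm_mul]
      exact mul_le_one₀ (hc y w) (norm_nonneg _) (hbE y w x)
    refine (Finset.sum_le_sum this).trans ?_
    simp
  have h1 : ∀ w, ∑ y, c y w * ∫ x, f0 x * E y w x ∂μ = ∫ x, f0 x * R w x ∂μ := by
    intro w
    have e1 : ∀ x, f0 x * R w x = ∑ y, c y w * (f0 x * E y w x) := by
      intro x
      rw [hR]
      simp only
      rw [Finset.mul_sum]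
      apply Finset.sum_congr rfl
      intro y _
      ring
    simp only [e1]
    rw [integral_finsetSum]
    · apply Finset.sum_congr rfl
      intro y _
      rw [integral_const_mul]
    · intro y _
      apply Integrable.const_mul
      apply integrable_bdd μ (hf0.mul (hE y w))
      intro x
      show ‖f0 x * E y w x‖ ≤ 1
      rw [norm_mul]
      exact mul_le_one₀ (hb0 x) (norm_nonneg _) (hbE y w x)
  have h2 : ∀ w, ‖∫ x, f0 x * R w x ∂μ‖ ≤ ∫ x, ‖R w x‖ ∂μ := by
    intro w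
    refine (norm_integral_le_integral_norm _).trans ?_
    apply integral_mono_of_nonneg
    · exact Filter.Eventually.of_forall fun x => norm_nonneg _
    · apply Integrable.of_bound (hRm w).norm.aestronglyMeasurable (Fintype.card Y : ℝ)
      apply Filter.Eventually.of_forall
      intro x
      rw [norm_norm]
      exact hRb w x
    · apply Filter.Eventually.of_forall
      intro x
      show ‖f0 x * R w x‖ ≤ ‖R w x‖
      rw [norm_mul]
      exact mul_le_of_le_one_left (norm_nonneg _) (hb0 x)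
  have h3 : ‖∑ w, ∑ y, c y w * ∫ x, f0 x * E y w x ∂μ‖ ≤ ∑ w, ∫ x, ‖R w x‖ ∂μ := by
    simp only [h1]
    refine (norm_sum_le _ _).trans ?_
    exact Finset.sum_le_sum fun w _ => h2 w
  have h4 : ‖∑ w, ∑ y, c y w * ∫ x, f0 x * E y w x ∂μ‖ ^ 2 ≤
      (Fintype.card W : ℝ) * ∑ w, ∫ x, ‖R w x‖ ^ 2 ∂μ := by
    calc _ ≤ (∑ w, ∫ x, ‖R w x‖ ∂μ) ^ 2 := pow_le_pow_left₀ (norm_nonneg _) h3 2
      _ ≤ (Finset.univ : Finset W).card * ∑ w, (∫ x, ‖R w x‖ ∂μ) ^ 2 := sq_sum_le_card_mul_sum_sq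
      _ ≤ (Fintype.card W : ℝ) * ∑ w, ∫ x, ‖R w x‖ ^ 2 ∂μ := by
          rw [Finset.card_univ]
          apply mul_le_mul_of_nonneg_left _ (Nat.cast_nonneg _)
          apply Finset.sum_le_sum
          intro w _
          apply sq_integral_le μ (hRm w).norm (K := (Fintype.card Y : ℝ))
          intro x
          rw [abs_norm]
          exact hRb w x
  have h5 : ∀ w, ((∫ x, ‖R w x‖ ^ 2 ∂μ : ℝ) : ℂ)
      = ∑ y, ∑ y', c y w * (starRingEnd ℂ) (c y' w) * J y y' w := by
    intro w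
    rw [← integral_complex_ofReal]
    have e1 : ∀ x, (((‖R w x‖ ^ 2 : ℝ)) : ℂ) = ∑ y, ∑ y', c y w * (starRingEnd ℂ) (c y' w) *
        (E y w x * (starRingEnd ℂ) (E y' w x)) := by
      intro x
      push_cast
      rw [← Complex.mul_conj', hR]
      simp only
      rw [map_sum, Finset.sum_mul_sum]
      apply Finset.sum_congr rfl
      intro y _
      apply Finset.sum_congr rfl
      intro y' _
      rw [map_mul]
      ring
    simp only [e1]
    have hi : ∀ y y', Integrable (fun x => c y w * (starRingEnd ℂ) (c y' w) *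
        (E y w x * (starRingEnd ℂ) (E y' w x))) μ := by
      intro y y'
      apply Integrable.const_mul
      apply integrable_bdd μ ((hE y w).mul ((Complex.continuous_conj.measurable).comp (hE y' w)))
      intro x
      show ‖E y w x * (starRingEnd ℂ) (E y' w x)‖ ≤ 1
      rw [norm_mul, Complex.norm_conj]
      exact mul_le_one₀ (hbE y w x) (norm_nonneg _) (hbE y' w x)
    rw [integral_finsetSum]
    · apply Finset.sum_congr rfl
      intro y _
      rw [integral_finsetSum]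
      · apply Finset.sum_congr rfl
        intro y' _
        rw [integral_const_mul, hJ]
      · intro y' _
        exact hi y y'
    · intro y _
      apply integrable_finsetSum
      intro y' _
      exact hi y y'
  have h6 : ∑ w, ∫ x, ‖R w x‖ ^ 2 ∂μ ≤
      ∑ y, ∑ y', ‖∑ w, c y w * (starRingEnd ℂ) (c y' w) * J y y' w‖ := by
    have e1 : ((∑ w, ∫ x, ‖R w x‖ ^ 2 ∂μ : ℝ) : ℂ)
        = ∑ y, ∑ y', ∑ w, c y w * (starRingEnd ℂ) (c y' w) * J y y' w := by
      push_cast
      simp only [h5]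
      rw [Finset.sum_comm]
      apply Finset.sum_congr rfl
      intro y _
      rw [Finset.sum_comm]
    have e2 : ∑ w, ∫ x, ‖R w x‖ ^ 2 ∂μ = ‖((∑ w, ∫ x, ‖R w x‖ ^ 2 ∂μ : ℝ) : ℂ)‖ := by
      rw [Complex.norm_real, Real.norm_of_nonneg]
      exact Finset.sum_nonneg fun w _ => integral_nonneg fun x => sq_nonneg _
    rw [e2, e1]
    refine (norm_sum_le _ _).trans ?_
    apply Finset.sum_le_sum
    intro y _
    exact norm_sum_le _ _
  exact h4.trans (mul_le_mul_of_nonneg_left h6 (Nat.cast_nonneg _))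

end dyn

theorem combo {ι : Type} [Fintype ι] [DecidableEq ι] (κ : ι → ZMod 3) (ρ : ℝ) (h0 : 0 ≤ ρ)
    (h1 : ρ ≤ 1) :
    ∑ y : ι → Fin 2, ∑ y' : ι → Fin 2,
      ρ ^ (Bc (fun i => κ i * ((y i).val : ZMod 3) - κ i * ((y' i).val : ZMod 3)))
      ≤ 4 ^ (Fintype.card ι) * ((3 + ρ) / 4) ^ (Bc κ) := by
  classical
  set w : ι → Fin 2 → Fin 2 → ℝ := fun i a b => if κ i = 1 ∧ a = 1 ∧ b = 0 then ρ else 1 with hw
  have hpt : ∀ y y' : ι → Fin 2,
      ρ ^ (Bc (fun i => κ i * ((y i).val : ZMod 3) - κ i * ((y' i).val : ZMod 3)))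
        ≤ ∏ i, w i (y i) (y' i) := by
    intro y y'
    have e1 : ∏ i, w i (y i) (y' i)
        = ρ ^ (Finset.univ.filter (fun i => κ i = 1 ∧ y i = 1 ∧ y' i = 0)).card := by
      rw [hw]
      simp only
      rw [Finset.prod_ite, Finset.prod_const, Finset.prod_const_one, mul_one]
    rw [e1]
    apply pow_le_pow_of_le_one h0 h1
    unfold Bc
    apply Finset.card_le_card
    intro i hi
    rw [Finset.mem_filter] at hi ⊢
    obtain ⟨_, g1, g2, g3⟩ := hi
    refine ⟨Finset.mem_univ _, ?_⟩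
    show κ i * ((y i).val : ZMod 3) - κ i * ((y' i).val : ZMod 3) = 1
    rw [g1, g2, g3]
    simp
  refine (Finset.sum_le_sum fun y _ => Finset.sum_le_sum fun y' _ => hpt y y').trans ?_
  have e1 : ∀ y : ι → Fin 2, ∑ y' : ι → Fin 2, ∏ i, w i (y i) (y' i) = ∏ i, ∑ b, w i (y i) b := by
    intro y
    rw [Finset.prod_univ_sum, Fintype.piFinset_univ]
  simp only [e1]
  have e2 : ∑ y : ι → Fin 2, ∏ i, ∑ b, w i (y i) b = ∏ i, ∑ a, ∑ b, w i a b := by
    rw [Finset.prod_univ_sum, Fintype.piFinset_univ]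
  rw [e2]
  have e3 : ∀ i, ∑ a, ∑ b, w i a b = 4 * (if κ i = 1 then (3 + ρ) / 4 else 1) := by
    intro i
    rw [hw]
    simp only [Fin.sum_univ_two]
    by_cases hk : κ i = 1
    · simp [hk]
      ring
    · simp [hk]
      norm_num
  simp only [e3]
  rw [Finset.prod_mul_distrib, Finset.prod_const, Finset.card_univ, Finset.prod_ite,
    Finset.prod_const, Finset.prod_const_one, mul_one]
  rfl

lemma Th_sub {ι : Type} [Fintype ι] (r : ℕ) (κ κ' : ι → ZMod 3) (t : ι → Fin 3 × Fin 2)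
    (τ : Fin r → ι → Fin 2) : Th r κ t τ - Th r κ' t τ = Th r (fun i => κ i - κ' i) t τ := by
  unfold Th
  rw [← Finset.sum_sub_distrib]
  apply Finset.sum_congr rfl
  intro i _
  ring

lemma Th_cons {ι : Type} [Fintype ι] (r : ℕ) (κ : ι → ZMod 3) (t : ι → Fin 3 × Fin 2)
    (y : ι → Fin 2) (τ : Fin r → ι → Fin 2) :
    Th (r + 1) κ t (Fin.cons y τ) = Th r (fun i => κ i * ((y i).val : ZMod 3)) t τ := by
  unfold Th
  apply Finset.sum_congr rfl
  intro i _
  rw [Fin.prod_univ_succ]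
  simp only [Fin.cons_zero, Fin.cons_succ]
  ring

lemma Nn_cons {ι : Type} [Fintype ι] (r : ℕ) (lam : ι → ℕ) (mu : Fin (r + 1) → ι → ℕ)
    (t : ι → Fin 3 × Fin 2) (y : ι → Fin 2) (τ : Fin r → ι → Fin 2) :
    Nn lam mu t (Fin.cons y τ) = Nn lam (fun l => mu l.succ) t τ + ∑ i, (y i).val * mu 0 i := by
  unfold Nn
  rw [Fin.sum_univ_succ]
  simp only [Fin.cons_zero, Fin.cons_succ]
  ring

lemma sum_cons {r : ℕ} {P : Type} [Fintype P] (f : (Fin (r + 1) → P) → ℂ) :
    ∑ q, f q = ∑ q0 : P, ∑ q' : Fin r → P, f (Fin.cons q0 q') := by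
  rw [← Fintype.sum_prod_type (f := fun x : P × (Fin r → P) => f (Fin.cons x.1 x.2))]
  exact (Equiv.sum_comp (Fin.consEquiv (fun _ : Fin (r + 1) => P)) f).symm

section dyn2
universe u
variable {X : Type u} [MeasurableSpace X] (μ : Measure X) [IsProbabilityMeasure μ] {U : X → X}

theorem decay (hU : MeasurePreserving U μ μ) (r : ℕ) : ∀ (ι : Type) [Fintype ι] [DecidableEq ι]
    (lam : ι → ℕ) (mu : Fin r → ι → ℕ) (κ : ι → ZMod 3) (f : Fin (r + 3) → X → ℂ),
    (∀ j, Measurable (f j)) → (∀ j x, ‖f j x‖ ≤ 1) →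
    ‖∑ t : ι → Fin 3 × Fin 2, ∑ τ : Fin r → ι → Fin 2,
        ps (Th r κ t τ) * Iv μ U f (Nn lam mu t τ)‖
      ≤ rho r ^ (Bc κ) * (6 ^ (Fintype.card ι) * (2 ^ (Fintype.card ι)) ^ r) := by
  induction r with
  | zero =>
    intro ι _ _ lam mu κ f hf hb
    have h := base μ hU ι lam κ f hf hb
    have e : ∀ (t : ι → Fin 3 × Fin 2), ∑ τ : Fin 0 → ι → Fin 2,
        ps (Th 0 κ t τ) * Iv μ U f (Nn lam mu t τ)
        = ps (∑ i, κ i * c4 (t i)) * Iv μ U f (∑ i, sd (t i).1 (t i).2 * lam i) := by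
      intro t
      rw [Fintype.sum_unique]
      simp [Th, Nn]
    simp only [e]
    simpa using h
  | succ r ih =>
    intro ι _ _ lam mu κ f hf hb
    classical
    set n := Fintype.card ι with hn
    let W := (ι → Fin 3 × Fin 2) × (Fin r → ι → Fin 2)
    let Y := ι → Fin 2
    let n0 : Y → ℕ := fun y => ∑ i, (y i).val * mu 0 i
    let m : W → ℕ := fun w => Nn lam (fun l => mu l.succ) w.1 w.2
    let κy : Y → ι → ZMod 3 := fun y i => κ i * ((y i).val : ZMod 3)
    let c : Y → W → ℂ := fun y w => ps (Th r (κy y) w.1 w.2)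
    let E : Y → W → X → ℂ := fun y w x =>
      ∏ j : Fin (r + 3), f j.succ (U^[((j : ℕ) + 1) * (m w + n0 y)] x)
    let g : Y → Y → Fin (r + 3) → X → ℂ := fun y y' j z =>
      f j.succ (U^[((j : ℕ) + 1) * n0 y] z) *
        (starRingEnd ℂ) (f j.succ (U^[((j : ℕ) + 1) * n0 y'] z))
    let J : Y → Y → W → ℂ := fun y y' w => Iv μ U (g y y') (m w)
    have hEm : ∀ y w, Measurable (E y w) := by
      intro y w
      apply Finset.measurable_prod
      intro j _
      exact meas_comp μ hU (hf j.succ) _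
    have hEb : ∀ y w x, ‖E y w x‖ ≤ 1 := by
      intro y w x
      show ‖∏ j : Fin (r + 3), f j.succ (U^[((j : ℕ) + 1) * (m w + n0 y)] x)‖ ≤ 1
      rw [norm_prod]
      exact Finset.prod_le_one (fun j _ => norm_nonneg _) fun j _ => hb _ _
    have hgm : ∀ y y' j, Measurable (g y y' j) := by
      intro y y' j
      exact (meas_comp μ hU (hf j.succ) _).mul
        ((Complex.continuous_conj.measurable).comp (meas_comp μ hU (hf j.succ) _))
    have hgb : ∀ y y' j x, ‖g y y' j x‖ ≤ 1 := by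
      intro y y' j x
      show ‖f j.succ (U^[((j : ℕ) + 1) * n0 y] x) *
        (starRingEnd ℂ) (f j.succ (U^[((j : ℕ) + 1) * n0 y'] x))‖ ≤ 1
      rw [norm_mul, Complex.norm_conj]
      exact mul_le_one₀ (hb _ _) (norm_nonneg _) (hb _ _)
    have hJ : ∀ y y' w, ∫ x, E y w x * (starRingEnd ℂ) (E y' w x) ∂μ = J y y' w := by
      intro y y' w
      have h1 := integral_shift μ hU (m w) (Φ := fun z => ∏ j : Fin (r + 3),
        g y y' j (U^[(j : ℕ) * m w] z)) (by
          apply Finset.measurable_prod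
          intro j _
          exact meas_comp μ hU (hgm y y' j) _)
      show _ = ∫ z, ∏ j : Fin (r + 3), g y y' j (U^[(j : ℕ) * m w] z) ∂μ
      rw [← h1]
      congr 1
      funext x
      show (∏ j : Fin (r + 3), f j.succ (U^[((j : ℕ) + 1) * (m w + n0 y)] x)) *
        (starRingEnd ℂ) (∏ j : Fin (r + 3), f j.succ (U^[((j : ℕ) + 1) * (m w + n0 y')] x)) = _
      rw [map_prod, ← Finset.prod_mul_distrib]
      apply Finset.prod_congr rfl
      intro j _
      show _ = f j.succ (U^[((j : ℕ) + 1) * n0 y] (U^[(j : ℕ) * m w] (U^[m w] x))) *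
        (starRingEnd ℂ) (f j.succ (U^[((j : ℕ) + 1) * n0 y'] (U^[(j : ℕ) * m w] (U^[m w] x))))
      rw [← Function.iterate_add_apply, ← Function.iterate_add_apply,
        ← Function.iterate_add_apply, ← Function.iterate_add_apply]
      have e1 : ∀ z : Y, ((j : ℕ) + 1) * (m w + n0 z)
          = ((j : ℕ) + 1) * n0 z + (j : ℕ) * m w + m w := fun z => by ring
      rw [e1 y, e1 y', add_assoc, add_assoc]
    have key := cs_step μ c (f 0) E J (fun y w => (ps_norm _).le) (hf 0) (hb 0) hEm hEb hJ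
    have hV : ∑ t : ι → Fin 3 × Fin 2, ∑ τ : Fin (r + 1) → ι → Fin 2,
        ps (Th (r + 1) κ t τ) * Iv μ U f (Nn lam mu t τ)
        = ∑ w, ∑ y, c y w * ∫ x, f 0 x * E y w x ∂μ := by
      rw [Fintype.sum_prod_type]
      apply Finset.sum_congr rfl
      intro t _
      rw [sum_cons, Finset.sum_comm]
      apply Finset.sum_congr rfl
      intro τ _
      apply Finset.sum_congr rfl
      intro y _
      rw [Th_cons, Nn_cons]
      congr 1
      unfold Iv
      congr 1
      funext x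
      rw [Fin.prod_univ_succ]
      simp only [Fin.val_zero, zero_mul, Function.iterate_zero, id_eq, Fin.val_succ]
      rfl
    have hcard : (Fintype.card W : ℝ) = 6 ^ n * (2 ^ n) ^ r := by
      rw [Fintype.card_prod, Fintype.card_fun, Fintype.card_fun, Fintype.card_fun,
        Fintype.card_prod, Fintype.card_fin, Fintype.card_fin, Fintype.card_fin, ← hn]
      push_cast
      norm_num
    have hin : ∀ y y', ‖∑ w, c y w * (starRingEnd ℂ) (c y' w) * J y y' w‖ ≤
        rho r ^ (Bc (fun i => κ i * ((y i).val : ZMod 3) - κ i * ((y' i).val : ZMod 3))) *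
          (Fintype.card W : ℝ) := by
      intro y y'
      have h1 := ih ι lam (fun l => mu l.succ)
        (fun i => κ i * ((y i).val : ZMod 3) - κ i * ((y' i).val : ZMod 3)) (g y y')
        (hgm y y') (hgb y y')
      rw [hcard]
      refine le_trans (le_of_eq ?_) h1
      congr 1
      rw [Fintype.sum_prod_type]
      apply Finset.sum_congr rfl
      intro t _
      apply Finset.sum_congr rfl
      intro τ _
      show ps (Th r (κy y) t τ) * (starRingEnd ℂ) (ps (Th r (κy y') t τ)) * _ = _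
      rw [← ps_neg, ← AddChar.map_add_eq_mul, ← sub_eq_add_neg, Th_sub]
    have h2 : ∑ y, ∑ y', ‖∑ w, c y w * (starRingEnd ℂ) (c y' w) * J y y' w‖ ≤
        (Fintype.card W : ℝ) * (4 ^ n * ((3 + rho r) / 4) ^ (Bc κ)) := by
      refine (Finset.sum_le_sum fun y _ => Finset.sum_le_sum fun y' _ => hin y y').trans ?_
      have h3 := combo κ (rho r) (rho_nonneg r) (rho_lt_one r).le
      simp only [← Finset.sum_mul]
      rw [mul_comm]
      exact mul_le_mul_of_nonneg_left h3 (Nat.cast_nonneg _)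
    have h4 : (rho (r + 1)) ^ 2 = (3 + rho r) / 4 := by
      show (Real.sqrt ((3 + rho r) / 4)) ^ 2 = _
      rw [Real.sq_sqrt]
      have := rho_nonneg r
      linarith
    rw [hV]
    have h5 : ‖∑ w, ∑ y, c y w * ∫ x, f 0 x * E y w x ∂μ‖ ^ 2 ≤
        (rho (r + 1) ^ (Bc κ) * (6 ^ n * (2 ^ n) ^ (r + 1))) ^ 2 := by
      refine key.trans ((mul_le_mul_of_nonneg_left h2 (Nat.cast_nonneg _)).trans (le_of_eq ?_))
      rw [hcard, ← h4]
      have e1 : (4 : ℝ) ^ n = (2 ^ n) ^ 2 := by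
        rw [← pow_mul, mul_comm n 2, pow_mul]
        norm_num
      have e2 : (rho (r + 1) ^ 2) ^ (Bc κ) = (rho (r + 1) ^ (Bc κ)) ^ 2 := by
        rw [← pow_mul, ← pow_mul, mul_comm]
      rw [e1, e2, pow_succ (2 ^ n)]
      ring
    have h6 : 0 ≤ rho (r + 1) ^ (Bc κ) * (6 ^ n * (2 ^ n) ^ (r + 1)) := by
      have := rho_nonneg (r + 1)
      positivity
    exact (pow_le_pow_iff_left₀ (norm_nonneg _) h6 two_ne_zero).1 h5

end dyn2

end Pool.Agent.V8H34.KR
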