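import Mathlib

/-!
Functions on a set of steps which are sums of differences along `n` commuting directions: a
multiplicative filtration.
-/

namespace Pool.Agent.V8H34.KR

open Finset

section filt
variable {G R : Type} [AddCommGroup G] [CommRing R] (D : Set G)

/-- `Fl D n P`: on `D` the function `P` is a sum of differences of functions of `n` variables, each
along one of the variables. -/
def Fl : ℕ → (G → R) → Prop
  | 0, P => ∀ s ∈ D, P s = 0
  | n + 1, P => ∃ A : G → R, ∀ x, Fl n (fun s => P s - (A (x + s) - A x))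

variable {D}

lemma Fl_congr {n : ℕ} {P Q : G → R} (h : ∀ s ∈ D, P s = Q s) (hP : Fl D n P) : Fl D n Q := by
  induction n generalizing P Q with
  | zero =>
    intro s hs
    rw [← h s hs]
    exact hP s hs
  | succ n ih =>
    obtain ⟨A, hA⟩ := hP
    exact ⟨A, fun x => ih (fun s hs => by rw [h s hs]) (hA x)⟩

lemma Fl_add {n : ℕ} {P Q : G → R} (hP : Fl D n P) (hQ : Fl D n Q) :
    Fl D n (fun s => P s + Q s) := by
  induction n generalizing P Q with
  | zero =>
    intro s hs
    show P s + Q s = 0
    rw [hP s hs, hQ s hs, add_zero]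
  | succ n ih =>
    obtain ⟨A, hA⟩ := hP
    obtain ⟨B, hB⟩ := hQ
    refine ⟨fun x => A x + B x, fun x => ?_⟩
    refine Fl_congr (fun s _ => ?_) (ih (hA x) (hB x))
    ring

lemma Fl_const_mul {n : ℕ} (c : R) {P : G → R} (hP : Fl D n P) : Fl D n (fun s => c * P s) := by
  induction n generalizing P with
  | zero =>
    intro s hs
    show c * P s = 0
    rw [hP s hs, mul_zero]
  | succ n ih =>
    obtain ⟨A, hA⟩ := hP
    refine ⟨fun x => c * A x, fun x => ?_⟩
    refine Fl_congr (fun s _ => ?_) (ih (hA x))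
    ring

lemma Fl_succ {n : ℕ} {P : G → R} (hP : Fl D n P) : Fl D (n + 1) P := by
  refine ⟨fun _ => 0, fun x => ?_⟩
  refine Fl_congr (fun s _ => ?_) hP
  ring

lemma Fl_mono {n m : ℕ} (h : n ≤ m) {P : G → R} (hP : Fl D n P) : Fl D m P := by
  induction m, h using Nat.le_induction with
  | base => exact hP
  | succ m _ ih => exact Fl_succ ih

lemma Fl_hom (t : G →+ R) : Fl D 1 (fun s => t s) := by
  refine ⟨fun x => t x, fun x => ?_⟩
  intro s _
  show t s - (t (x + s) - t x) = 0
  rw [map_add]
  ring

lemma Fl_hom_mul (t : G →+ R) {n : ℕ} {P : G → R} (hP : Fl D n P) :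
    Fl D (n + 1) (fun s => t s * P s) := by
  induction n generalizing P with
  | zero =>
    refine ⟨fun _ => 0, fun x => ?_⟩
    intro s hs
    show t s * P s - (0 - 0) = 0
    rw [hP s hs]
    ring
  | succ n ih =>
    have hP' := hP
    obtain ⟨A, hA⟩ := hP
    refine ⟨fun x => t x * A x, fun x => ?_⟩
    have h1 : Fl D (n + 1) (fun s => (-t x) * P s) := Fl_const_mul _ hP'
    have h2 : Fl D (n + 1) (fun s => t x * (P s - (A (x + s) - A x))) :=
      Fl_succ (Fl_const_mul _ (hA x))
    have h3 : Fl D (n + 1) (fun s => t s * (P s - (A (x + s) - A x))) := ih (hA x)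
    have h4 : Fl D (n + 1) (fun s => (-A x) * t s) :=
      Fl_mono (by omega) (Fl_const_mul _ (Fl_hom t))
    refine Fl_congr (fun s _ => ?_) (Fl_add (Fl_add h1 h2) (Fl_add h3 h4))
    show _ = t s * P s - (t (x + s) * A (x + s) - t x * A x)
    rw [map_add]
    ring

theorem Fl_rep {n : ℕ} {P : G → R} (hP : Fl D n P) :
    ∃ h : Fin n → (Fin n → G) → R, ∀ z : Fin n → G, ∀ s ∈ D,
      ∑ j, (h j (Function.update z j (z j + s)) - h j z) = P s := by
  induction n generalizing P with
  | zero =>
    refine ⟨fun j => j.elim0, fun z s hs => ?_⟩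
    rw [Finset.univ_eq_empty, Finset.sum_empty]
    exact (hP s hs).symm
  | succ n ih =>
    obtain ⟨A, hA⟩ := hP
    choose g hg using fun x => ih (hA x)
    refine ⟨fun j z => Fin.cases (A (z 0)) (fun i => g (z 0) i (Fin.tail z)) j, fun z s hs => ?_⟩
    rw [Fin.sum_univ_succ]
    simp only [Fin.cases_zero, Fin.cases_succ, Function.update_self, Fin.tail_update_succ]
    have h1 : ∀ i : Fin n, Function.update z i.succ (z i.succ + s) 0 = z 0 := by
      intro i
      rw [Function.update_of_ne (Fin.succ_ne_zero i).symm]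
    simp only [h1]
    have h2 := hg (z 0) (Fin.tail z) s hs
    have h3 : ∀ i : Fin n, Fin.tail z i = z i.succ := fun i => rfl
    simp only [h3] at h2
    rw [h2]
    ring

end filt

end Pool.Agent.V8H34.KR
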