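import Pool.Agent.Helper406.Rec.Neg

/-!
Sets of `k`-recurrence and commuting transformations: the decay of the twisted averages of three
functions (the starting game of `Pool/Agent/Helper406/Rec/Tensor.lean`, for arbitrary bounded functions
and with phases that are trivial in some of the coordinates).
-/

namespace Pool.Agent.V8H34.KR

open Finset MeasureTheory Pool.Agent.Helper406.Rec

/-! ### the cubic character -/

/-- the character of `ZMod 3` -/
noncomputable def ps : AddChar (ZMod 3) ℂ := ZMod.stdAddChar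

lemma ps_norm (a : ZMod 3) : ‖ps a‖ = 1 := AddChar.norm_apply ps a

lemma ps_one_sq : (ps 1) ^ 2 + ps 1 + 1 = 0 := by
  have h1 : ∑ a : ZMod 3, ps a = 0 := by
    rw [AddChar.sum_eq_zero_iff_ne_zero]
    intro h0
    have h2 := ZMod.isPrimitive_stdAddChar 3 (show (1 : ZMod 3) ≠ 0 by decide)
    apply h2
    ext a
    have h3 : ps a = 1 := by rw [h0]; rfl
    rw [AddChar.mulShift_apply, one_mul]
    exact h3
  have h4 : ∑ a : ZMod 3, ps a = ps 0 + ps 1 + ps 2 := Fin.sum_univ_three _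
  rw [h4, show (2 : ZMod 3) = 1 + 1 by decide, AddChar.map_add_eq_mul, AddChar.map_zero_eq_one] at h1
  linear_combination h1

lemma ps_neg (a : ZMod 3) : ps (-a) = (starRingEnd ℂ) (ps a) := AddChar.map_neg_eq_conj ps a

lemma ps_sum {ι : Type*} (s : Finset ι) (g : ι → ZMod 3) : ps (∑ i ∈ s, g i) = ∏ i ∈ s, ps (g i) := by
  classical
  induction s using Finset.induction_on with
  | empty => simp
  | insert a s ha ih => rw [Finset.sum_insert ha, Finset.prod_insert ha, AddChar.map_add_eq_mul, ih]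

/-- the digit of a node is four -/
def c4 (p : Fin 3 × Fin 2) : ZMod 3 := if sd p.1 p.2 = 4 then 1 else 0

lemma wt_ps (p : Fin 3 × Fin 2) : wt (ps 1) p.1 p.2 = ps (c4 p) := by
  rw [wt_eq]
  unfold c4
  split_ifs
  · rfl
  · rw [AddChar.map_zero_eq_one]

section dyn
universe u
variable {X : Type u} [MeasurableSpace X] (μ : Measure X) [IsProbabilityMeasure μ] (U : X → X)

/-- the integral of the product of `q` functions along multiples of `N` -/
noncomputable def Iv {q : ℕ} (f : Fin q → X → ℂ) (N : ℕ) : ℂ :=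
  ∫ x, ∏ j : Fin q, f j (U^[(j : ℕ) * N] x) ∂μ

variable {U}

omit [IsProbabilityMeasure μ] in
lemma integral_shift (hU : MeasurePreserving U μ μ) (k : ℕ) {Φ : X → ℂ} (hΦ : Measurable Φ) :
    ∫ x, Φ (U^[k] x) ∂μ = ∫ x, Φ x ∂μ := by
  have h := hU.iterate k
  conv_rhs => rw [← h.map_eq]
  rw [integral_map h.measurable.aemeasurable hΦ.aestronglyMeasurable]

lemma integrable_bdd {Φ : X → ℂ} (hΦ : Measurable Φ) (hb : ∀ x, ‖Φ x‖ ≤ 1) : Integrable Φ μ :=
  Integrable.of_bound hΦ.aestronglyMeasurable 1 (Filter.Eventually.of_forall hb)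

omit [IsProbabilityMeasure μ] in
lemma meas_comp (hU : MeasurePreserving U μ μ) {Φ : X → ℂ} (hΦ : Measurable Φ) (k : ℕ) :
    Measurable (fun x => Φ (U^[k] x)) := hΦ.comp (hU.iterate k).measurable

lemma prod3_norm {a b c : ℂ} (ha : ‖a‖ ≤ 1) (hb : ‖b‖ ≤ 1) (hc : ‖c‖ ≤ 1) : ‖a * (b * c)‖ ≤ 1 := by
  rw [norm_mul, norm_mul]
  exact mul_le_one₀ ha (by positivity) (mul_le_one₀ hb (norm_nonneg _) hc)

theorem game_fin (hU : MeasurePreserving U μ μ) (n : ℕ) (lam : Fin n → ℕ) (f : Fin 3 → X → ℂ)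
    (hf : ∀ j, Measurable (f j)) (hb : ∀ j x, ‖f j x‖ ≤ 1) :
    ‖∑ a : Fin n → Fin 3, ∑ b : Fin n → Fin 2, (∏ i, wt (ps 1) (a i) (b i)) *
      Iv μ U f (∑ i, sd (a i) (b i) * lam i)‖ ^ 2 ≤ (141 / 4) ^ n := by
  set F : X → (Fin n → Fin 3) → ℂ := fun x a => f 0 (U^[∑ i, Xv (a i) * lam i] x) with hF
  set G : X → (Fin n → Fin 3) → ℂ := fun x a => f 1 (U^[∑ i, Yv (a i) * lam i] x) with hG
  set H : X → (Fin n → Fin 3) → ℂ := fun x a => f 2 (U^[∑ i, Zv (a i) * lam i] x) with hH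
  have hsums1 : ∀ (a : Fin n → Fin 3) (b : Fin n → Fin 2),
      ∑ i, sd (a i) (b i) * lam i + ∑ i, Xv (a i) * lam i = ∑ i, Yv (yi (a i) (b i)) * lam i := by
    intro a b
    rw [← Finset.sum_add_distrib]
    apply Finset.sum_congr rfl; intro i _
    rw [← Xv_sd]; ring
  have hsums2 : ∀ (a : Fin n → Fin 3) (b : Fin n → Fin 2),
      2 * ∑ i, sd (a i) (b i) * lam i + ∑ i, Xv (a i) * lam i
        = ∑ i, Zv (zi (a i) (b i)) * lam i := by
    intro a b
    rw [Finset.mul_sum, ← Finset.sum_add_distrib]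
    apply Finset.sum_congr rfl; intro i _
    rw [← Xv_sd2]; ring
  have hint : ∀ (a : Fin n → Fin 3) (b : Fin n → Fin 2),
      ∫ x, F x a * (G x (fun i => yi (a i) (b i)) * H x (fun i => zi (a i) (b i))) ∂μ
        = Iv μ U f (∑ i, sd (a i) (b i) * lam i) := by
    intro a b
    set N := ∑ i, sd (a i) (b i) * lam i with hN
    set k := ∑ i, Xv (a i) * lam i with hk
    have h1 := integral_shift μ hU k (Φ := fun x => f 0 x * (f 1 (U^[N] x) * f 2 (U^[2 * N] x))) (by
      exact (hf 0).mul ((meas_comp μ hU (hf 1) N).mul (meas_comp μ hU (hf 2) (2 * N))))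
    have h2 : Iv μ U f N = ∫ x, f 0 x * (f 1 (U^[N] x) * f 2 (U^[2 * N] x)) ∂μ := by
      unfold Iv
      congr 1
      funext x
      rw [Fin.prod_univ_three]
      simp [mul_assoc]
    rw [h2, ← h1]
    congr 1
    funext x
    simp only [hF, hG, hH]
    rw [← hsums1, ← hsums2, ← hN, ← hk, ← Function.iterate_add_apply, ← Function.iterate_add_apply]
  have hintg : ∀ (a : Fin n → Fin 3) (b : Fin n → Fin 2),
      Integrable (fun x => F x a * (G x (fun i => yi (a i) (b i)) * H x (fun i => zi (a i) (b i))))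
        μ := by
    intro a b
    apply integrable_bdd
    · exact (meas_comp μ hU (hf 0) _).mul ((meas_comp μ hU (hf 1) _).mul (meas_comp μ hU (hf 2) _))
    · intro x
      exact prod3_norm (hb _ _) (hb _ _) (hb _ _)
  have hS : ∑ a : Fin n → Fin 3, ∑ b : Fin n → Fin 2, (∏ i, wt (ps 1) (a i) (b i)) *
      Iv μ U f (∑ i, sd (a i) (b i) * lam i)
      = ∫ x, ∑ a : Fin n → Fin 3, ∑ b : Fin n → Fin 2, (∏ i, wt (ps 1) (a i) (b i)) *
        (F x a * (G x (fun i => yi (a i) (b i)) * H x (fun i => zi (a i) (b i)))) ∂μ := by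
    rw [integral_finsetSum]
    · apply Finset.sum_congr rfl; intro a _
      rw [integral_finsetSum]
      · apply Finset.sum_congr rfl; intro b _
        rw [integral_const_mul, hint]
      · intro b _
        exact (hintg a b).const_mul _
    · intro a _
      apply integrable_finsetSum
      intro b _
      exact (hintg a b).const_mul _
  have hC : ∀ x, ‖∑ a : Fin n → Fin 3, ∑ b : Fin n → Fin 2, (∏ i, wt (ps 1) (a i) (b i)) *
        (F x a * (G x (fun i => yi (a i) (b i)) * H x (fun i => zi (a i) (b i))))‖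
        ≤ Real.sqrt ((141 / 4) ^ n) := by
    intro x
    apply Real.le_sqrt_of_sq_le
    exact game (ps 1) ps_one_sq (ps_norm 1) n (F x) (G x) (H x) (fun a => hb _ _) (fun a => hb _ _)
      (fun a => hb _ _)
  have h5 : ‖∑ a : Fin n → Fin 3, ∑ b : Fin n → Fin 2, (∏ i, wt (ps 1) (a i) (b i)) *
      Iv μ U f (∑ i, sd (a i) (b i) * lam i)‖ ≤ Real.sqrt ((141 / 4) ^ n) := by
    rw [hS]
    have := norm_integral_le_of_norm_le_const (μ := μ) (Filter.Eventually.of_forall hC)
    simpa using this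
  calc _ ≤ (Real.sqrt ((141 / 4) ^ n)) ^ 2 := pow_le_pow_left₀ (norm_nonneg _) h5 2
    _ = (141 / 4) ^ n := Real.sq_sqrt (by positivity)

theorem game_ty (hU : MeasurePreserving U μ μ) (ι : Type) [Fintype ι] [DecidableEq ι]
    (lam : ι → ℕ) (f : Fin 3 → X → ℂ)
    (hf : ∀ j, Measurable (f j)) (hb : ∀ j x, ‖f j x‖ ≤ 1) :
    ‖∑ t : ι → Fin 3 × Fin 2, ps (∑ i, c4 (t i)) * Iv μ U f (∑ i, sd (t i).1 (t i).2 * lam i)‖ ^ 2
      ≤ (141 / 4) ^ (Fintype.card ι) := by
  set n := Fintype.card ι with hnn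
  have e : ι ≃ Fin n := Fintype.equivFin ι
  have key := game_fin μ hU n (fun i => lam (e.symm i)) f hf hb
  refine le_trans (le_of_eq ?_) key
  congr 2
  rw [← Fintype.sum_prod_type (f := fun x : (Fin n → Fin 3) × (Fin n → Fin 2) =>
    (∏ i, wt (ps 1) (x.1 i) (x.2 i)) * Iv μ U f (∑ i, sd (x.1 i) (x.2 i) * lam (e.symm i)))]
  rw [← Equiv.sum_comp (Equiv.arrowProdEquivProdArrow (Fin n) (fun _ => Fin 3)
    (fun _ => Fin 2)) (fun x : (Fin n → Fin 3) × (Fin n → Fin 2) =>
    (∏ i, wt (ps 1) (x.1 i) (x.2 i)) * Iv μ U f (∑ i, sd (x.1 i) (x.2 i) * lam (e.symm i)))]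
  rw [← Equiv.sum_comp (Equiv.arrowCongr e.symm (Equiv.refl (Fin 3 × Fin 2)))
    (fun t : ι → Fin 3 × Fin 2 => ps (∑ i, c4 (t i)) * Iv μ U f (∑ i, sd (t i).1 (t i).2 * lam i))]
  apply Finset.sum_congr rfl
  intro t _
  congr 1
  · rw [ps_sum, ← Equiv.prod_comp e.symm]
    apply Finset.prod_congr rfl
    intro i _
    rw [← wt_ps]
    simp [Equiv.arrowCongr, Equiv.arrowProdEquivProdArrow]
  · congr 1
    rw [← Equiv.sum_comp e (fun i => sd (((Equiv.arrowProdEquivProdArrow (Fin n)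
      (fun _ => Fin 3) (fun _ => Fin 2)) t).1 i) (((Equiv.arrowProdEquivProdArrow (Fin n)
      (fun _ => Fin 3) (fun _ => Fin 2)) t).2 i) * lam (e.symm i))]
    apply Finset.sum_congr rfl
    intro i _
    simp [Equiv.arrowCongr, Equiv.arrowProdEquivProdArrow]

end dyn

end Pool.Agent.V8H34.KR
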