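import Pool.Agent.V8H34.KR.Decay
import Pool.Agent.Helper903.DHJ

/-!
Sets of `k`-recurrence and commuting transformations: the digit set of order `k` is a set of
`k`-recurrence.
-/

namespace Pool.Agent.V8H34.KR

open Finset MeasureTheory Pool.Agent.Helper406.Rec

/-- one random group of digits -/
abbrev Om1 (r : ℕ) : Type := (Fin 3 × Fin 2) × (Fin r → Fin 2)

section dyn
universe u
variable {X : Type u} [MeasurableSpace X] (μ : Measure X) [IsProbabilityMeasure μ] {U : X → X}

theorem decay_u (hU : MeasurePreserving U μ μ) (r : ℕ) (ι : Type) [Fintype ι] [DecidableEq ι]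
    (lam : ι → ℕ) (mu : Fin r → ι → ℕ) (κ : ι → ZMod 3) (f : Fin (r + 3) → X → ℂ)
    (hf : ∀ j, Measurable (f j)) (hb : ∀ j x, ‖f j x‖ ≤ 1) :
    ‖∑ u : ι → Om1 r, ps (Th r κ (fun i => (u i).1) (fun l i => (u i).2 l)) *
        Iv μ U f (Nn lam mu (fun i => (u i).1) (fun l i => (u i).2 l))‖
      ≤ rho r ^ (Bc κ) * (Fintype.card (ι → Om1 r) : ℝ) := by
  have h := decay μ hU r ι lam mu κ f hf hb
  have h1 : (Fintype.card (ι → Om1 r) : ℝ)
      = 6 ^ (Fintype.card ι) * (2 ^ (Fintype.card ι)) ^ r := by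
    rw [Fintype.card_fun, Fintype.card_prod, Fintype.card_prod, Fintype.card_fun, Fintype.card_fin,
      Fintype.card_fin, Fintype.card_fin]
    push_cast
    rw [← pow_mul, mul_comm (Fintype.card ι) r, pow_mul, ← mul_pow]
  rw [h1]
  refine le_trans (le_of_eq ?_) h
  congr 1
  rw [← Fintype.sum_prod_type (f := fun x : (ι → Fin 3 × Fin 2) × (Fin r → ι → Fin 2) =>
    ps (Th r κ x.1 x.2) * Iv μ U f (Nn lam mu x.1 x.2))]
  let e : (ι → Om1 r) ≃ (ι → Fin 3 × Fin 2) × (Fin r → ι → Fin 2) :=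
    (Equiv.arrowProdEquivProdArrow ι (fun _ => Fin 3 × Fin 2) (fun _ => Fin r → Fin 2)).trans
      ((Equiv.refl _).prodCongr (Equiv.piComm (fun _ _ => Fin 2)))
  rw [← Equiv.sum_comp e]
  rfl

/-- the return function -/
noncomputable def nuq (U : X → X) (A : Set X) (q N : ℕ) : ℝ :=
  μ.real {x | ∀ a : Fin q, U^[(a : ℕ) * N] x ∈ A}

omit [IsProbabilityMeasure μ] in
lemma nuq_nonneg (A : Set X) (q N : ℕ) : 0 ≤ nuq μ U A q N := measureReal_nonneg

omit [IsProbabilityMeasure μ] in
lemma meas_all (hU : MeasurePreserving U μ μ) {A : Set X} (hA : MeasurableSet A) {q : ℕ}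
    (g : Fin q → ℕ) : MeasurableSet {x | ∀ a : Fin q, U^[g a] x ∈ A} := by
  have : {x | ∀ a : Fin q, U^[g a] x ∈ A} = ⋂ a : Fin q, U^[g a] ⁻¹' A := by
    ext x; simp
  rw [this]
  exact MeasurableSet.iInter fun a => (hU.iterate (g a)).measurable hA

omit [IsProbabilityMeasure μ] in
lemma shifted_q (hU : MeasurePreserving U μ μ) {A : Set X} (hA : MeasurableSet A) (q N k : ℕ) :
    μ.real {x | ∀ a : Fin q, U^[(a : ℕ) * N + k] x ∈ A} = nuq μ U A q N := by
  have h1 : {x | ∀ a : Fin q, U^[(a : ℕ) * N + k] x ∈ A}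
      = U^[k] ⁻¹' {x | ∀ a : Fin q, U^[(a : ℕ) * N] x ∈ A} := by
    ext x
    simp only [Set.mem_ofPred_eq, Set.mem_preimage, Function.iterate_add_apply]
  rw [h1, nuq]
  have h2 := (hU.iterate k).measure_preimage (s := {x | ∀ a : Fin q, U^[(a : ℕ) * N] x ∈ A})
    (meas_all μ hU hA _).nullMeasurableSet
  unfold Measure.real
  rw [h2]

/-- indicator functions -/
noncomputable def fA (A : Set X) (q : ℕ) : Fin q → X → ℂ := fun _ x => ((ind (x ∈ A) : ℝ) : ℂ)

lemma fA_meas {A : Set X} (hA : MeasurableSet A) (q : ℕ) (j : Fin q) : Measurable (fA A q j) := by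
  have h : (fun x => ind (x ∈ A)) = A.indicator (fun _ => (1:ℝ)) := by
    funext x
    by_cases hx : x ∈ A
    · rw [ind_true hx, Set.indicator_of_mem hx]
    · rw [ind_false hx, Set.indicator_of_notMem hx]
  have h2 : Measurable (fun x => ind (x ∈ A)) := by
    rw [h]
    exact measurable_const.indicator hA
  exact Complex.measurable_ofReal.comp h2

omit [MeasurableSpace X] in
lemma fA_bd (A : Set X) (q : ℕ) (j : Fin q) (x : X) : ‖fA A q j x‖ ≤ 1 := by
  show ‖((ind (x ∈ A) : ℝ) : ℂ)‖ ≤ 1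
  rw [Complex.norm_real, Real.norm_of_nonneg (ind_nonneg _)]
  exact ind_le_one _

lemma Iv_fA (hU : MeasurePreserving U μ μ) {A : Set X} (hA : MeasurableSet A) (q N : ℕ) :
    Iv μ U (fA A q) N = ((nuq μ U A q N : ℝ) : ℂ) := by
  unfold Iv
  have h1 : ∀ x, ∏ j : Fin q, fA A q j (U^[(j : ℕ) * N] x)
      = ((ind (x ∈ {x | ∀ a : Fin q, U^[(a : ℕ) * N] x ∈ A}) : ℝ) : ℂ) := by
    intro x
    show ∏ j : Fin q, ((ind (U^[(j : ℕ) * N] x ∈ A) : ℝ) : ℂ) = _
    by_cases h : ∀ a : Fin q, U^[(a : ℕ) * N] x ∈ A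
    · rw [ind_true (show x ∈ {x | ∀ a : Fin q, U^[(a : ℕ) * N] x ∈ A} from h)]
      rw [Finset.prod_eq_one]
      · simp
      · intro j _
        rw [ind_true (h j)]
        simp
    · rw [ind_false (show ¬ x ∈ {x | ∀ a : Fin q, U^[(a : ℕ) * N] x ∈ A} from h)]
      push Not at h
      obtain ⟨j, hj⟩ := h
      rw [Finset.prod_eq_zero (Finset.mem_univ j)]
      · simp
      · rw [ind_false hj]
        simp
  simp only [h1]
  rw [integral_complex_ofReal, integral_ind μ (meas_all μ hU hA _)]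
  rfl

/-- base point of a line -/
def bq {d q : ℕ} (φ : Fin d → Option (Fin q)) (e : Fin d → ℕ) : ℕ :=
  ∑ j, (φ j).elim 0 (fun c => (c : ℕ) * e j)

/-- step of a line -/
def sq {d q : ℕ} (φ : Fin d → Option (Fin q)) (e : Fin d → ℕ) : ℕ :=
  ∑ j, (φ j).elim (e j) (fun _ => 0)

lemma line_sum_q {d q : ℕ} (L : Combinatorics.Line (Fin q) (Fin d)) (e : Fin d → ℕ) (a : Fin q) :
    ∑ j, ((L a j : Fin q) : ℕ) * e j = (a : ℕ) * sq L.idxFun e + bq L.idxFun e := by
  unfold sq bq
  rw [Finset.mul_sum, ← Finset.sum_add_distrib]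
  apply Finset.sum_congr rfl
  intro j _
  have h0 : L a j = (L.idxFun j).getD a := rfl
  rw [h0]
  cases h : L.idxFun j with
  | none => simp
  | some c => simp

theorem ip_q (hU : MeasurePreserving U μ μ) {A : Set X} (hA : MeasurableSet A) (δ : ℝ) (hδ : 0 < δ)
    (hμ : δ ≤ μ.real A) (q d : ℕ) (hq : 0 < q)
    (hd : ∀ D : Set (Fin d → Fin q), δ / 2 ≤ Pool.Agent.Helper903.DHJ.dens D →
      ∃ L : Combinatorics.Line (Fin q) (Fin d), ∀ a : Fin q, L a ∈ D)
    (e : Fin d → ℕ) :
    δ / 2 ≤ ∑ φ : Fin d → Option (Fin q), ind (∃ j, φ j = none) * nuq μ U A q (sq φ e) := by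
  classical
  have : Nonempty (Fin q) := ⟨⟨0, hq⟩⟩
  set B : (Fin d → Fin q) → Set X := fun z => {x | U^[∑ j, (z j : ℕ) * e j] x ∈ A} with hB
  set C : (Fin d → Option (Fin q)) → Set X :=
    fun φ => {x | ∀ a : Fin q, U^[(a : ℕ) * sq φ e + bq φ e] x ∈ A} with hC
  have hBm : ∀ z, MeasurableSet (B z) := fun z => meas_pre μ hU hA _
  have hCm : ∀ φ, MeasurableSet (C φ) := fun φ => meas_all μ hU hA _
  have hBμ : ∀ z, μ.real (B z) = μ.real A := by
    intro z
    have h1 := (hU.iterate (∑ j, (z j : ℕ) * e j)).measure_preimage hA.nullMeasurableSet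
    unfold Measure.real
    rw [← h1]
    rfl
  have hCμ : ∀ φ, μ.real (C φ) = nuq μ U A q (sq φ e) := fun φ => shifted_q μ hU hA _ _ _
  have hdens : ∀ x, Pool.Agent.Helper903.DHJ.dens {z | x ∈ B z}
      = avg (fun z : Fin d → Fin q => ind (x ∈ B z)) := by
    intro x
    unfold Pool.Agent.Helper903.DHJ.dens Pool.Agent.Helper903.DHJ.avg Pool.Agent.Helper903.DHJ.ind avg
    congr 1
  have hpt : ∀ x, avg (fun z : Fin d → Fin q => ind (x ∈ B z)) ≤ δ / 2 +
      ∑ φ : Fin d → Option (Fin q), ind (∃ j, φ j = none) * ind (x ∈ C φ) := by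
    intro x
    have hnn : ∀ φ : Fin d → Option (Fin q), 0 ≤ ind (∃ j, φ j = none) * ind (x ∈ C φ) :=
      fun φ => mul_nonneg (ind_nonneg _) (ind_nonneg _)
    by_cases hx : δ / 2 ≤ avg (fun z : Fin d → Fin q => ind (x ∈ B z))
    · obtain ⟨L, hL⟩ := hd {z | x ∈ B z} (by rw [hdens]; exact hx)
      have h1 : x ∈ C L.idxFun := by
        intro a
        have g0 := hL a
        simp only [hB, Set.mem_ofPred_eq, line_sum_q] at g0
        exact g0
      have h2 : ∃ j, L.idxFun j = none := L.proper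
      have h3 : ind (∃ j, L.idxFun j = none) * ind (x ∈ C L.idxFun) ≤
          ∑ φ : Fin d → Option (Fin q), ind (∃ j, φ j = none) * ind (x ∈ C φ) :=
        Finset.single_le_sum (f := fun φ : Fin d → Option (Fin q) =>
          ind (∃ j, φ j = none) * ind (x ∈ C φ)) (fun φ _ => hnn φ) (Finset.mem_univ L.idxFun)
      rw [ind_true h1, ind_true h2] at h3
      have h4 : avg (fun z : Fin d → Fin q => ind (x ∈ B z)) ≤ 1 :=
        avg_le_one fun z => ind_le_one _
      linarith
    · push Not at hx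
      have := Finset.sum_nonneg (s := Finset.univ) fun φ _ => hnn φ
      linarith
  have hi1 : Integrable (fun x => avg (fun z : Fin d → Fin q => ind (x ∈ B z))) μ := by
    unfold avg
    apply Integrable.div_const
    apply integrable_finsetSum
    intro z _
    exact integrable_ind μ (hBm z)
  have hi2 : Integrable (fun x => δ / 2 +
      ∑ φ : Fin d → Option (Fin q), ind (∃ j, φ j = none) * ind (x ∈ C φ)) μ := by
    apply Integrable.add (integrable_const _)
    apply integrable_finsetSum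
    intro φ _
    exact (integrable_ind μ (hCm φ)).const_mul _
  have h1 := integral_mono hi1 hi2 hpt
  have e1 : ∫ x, avg (fun z : Fin d → Fin q => ind (x ∈ B z)) ∂μ = μ.real A := by
    unfold avg
    rw [integral_div, integral_finsetSum]
    · have : ∀ z ∈ (Finset.univ : Finset (Fin d → Fin q)), ∫ x, ind (x ∈ B z) ∂μ = μ.real A := by
        intro z _
        rw [integral_ind μ (hBm z), hBμ]
      rw [Finset.sum_congr rfl this]
      exact avg_const (Ω := (Fin d → Fin q)) (μ.real A)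
    · intro z _
      exact integrable_ind μ (hBm z)
  have e2 : ∫ x, (δ / 2 + ∑ φ : Fin d → Option (Fin q),
      ind (∃ j, φ j = none) * ind (x ∈ C φ)) ∂μ
      = δ / 2 + ∑ φ : Fin d → Option (Fin q), ind (∃ j, φ j = none) *
          nuq μ U A q (sq φ e) := by
    rw [integral_add (integrable_const _), integral_finsetSum]
    · congr 1
      · simp
      · apply Finset.sum_congr rfl
        intro φ _
        rw [integral_const_mul, integral_ind μ (hCm φ), hCμ]
    · intro φ _
      exact (integrable_ind μ (hCm φ)).const_mul _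
    · apply integrable_finsetSum
      intro φ _
      exact (integrable_ind μ (hCm φ)).const_mul _
  rw [e1, e2] at h1
  linarith

end dyn

/-! ### the digit set -/

/-- the digits of the element of the digit set -/
def Adm (s : ℕ → ℕ → ℕ) : Prop :=
  (∀ i, s i 0 = 0 ∨ s i 0 = 1 ∨ s i 0 = 3 ∨ s i 0 = 4) ∧ ∀ i l, 0 < l → s i l = 0 ∨ s i l = 1

/-- the full groups -/
def Full (r : ℕ) (s : ℕ → ℕ → ℕ) (i : ℕ) : Prop := s i 0 = 4 ∧ ∀ l, 0 < l → l < r + 1 → s i l = 1

/-- the return set -/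
def InD (r : ℕ) (N : ℕ) : Prop :=
  ∃ (M : ℕ) (s : ℕ → ℕ → ℕ), Adm s ∧
    ¬ 3 ∣ Nat.card {i : ℕ // i < M ∧ Full r s i} ∧
    N = ∑ i ∈ range M, ∑ l ∈ range (r + 1), s i l * Lam ((r + 1) * i + l)

/-- digits of a group -/
def dg {r : ℕ} (u : Om1 r) (l : ℕ) : ℕ :=
  if l = 0 then sd u.1.1 u.1.2 else if h : l - 1 < r then (u.2 ⟨l - 1, h⟩).val else 0

lemma dg_zero {r : ℕ} (u : Om1 r) : dg u 0 = sd u.1.1 u.1.2 := rfl

lemma dg_succ {r : ℕ} (u : Om1 r) (l : Fin r) : dg u (l + 1) = (u.2 l).val := by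
  unfold dg
  rw [if_neg (by omega), dif_pos (by simp)]
  simp

lemma dg_01 {r : ℕ} (u : Om1 r) (l : ℕ) (hl : 0 < l) : dg u l = 0 ∨ dg u l = 1 := by
  unfold dg
  rw [if_neg (by omega)]
  split_ifs with h
  · have := (u.2 ⟨l - 1, h⟩).isLt
    omega
  · exact Or.inl rfl

/-- full random groups -/
def FullU {r : ℕ} (u : Om1 r) : Prop := sd u.1.1 u.1.2 = 4 ∧ ∀ l, u.2 l = 1

instance {r : ℕ} (u : Om1 r) : Decidable (FullU u) := by
  unfold FullU; infer_instance

lemma full_dg {r : ℕ} (u : Om1 r) : (dg u 0 = 4 ∧ ∀ l, 0 < l → l < r + 1 → dg u l = 1) ↔ FullU u := by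
  unfold FullU
  rw [dg_zero]
  apply and_congr Iff.rfl
  constructor
  · intro h l
    have h1 := h (l + 1) (by omega) (by omega)
    rw [dg_succ] at h1
    exact Fin.ext h1
  · intro h l hl hr
    obtain ⟨l', rfl⟩ : ∃ l', l = l' + 1 := ⟨l - 1, by omega⟩
    have h1 := dg_succ u ⟨l', by omega⟩
    simp only at h1
    rw [h1, h]
    rfl

lemma Th_count {r : ℕ} {ι : Type} [Fintype ι] [DecidableEq ι] (u : ι → Om1 r) :
    Th r (fun _ => 1) (fun i => (u i).1) (fun l i => (u i).2 l)
      = ((Finset.univ.filter (fun i => FullU (u i))).card : ZMod 3) := by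
  unfold Th
  have h : ∀ i, (1 : ZMod 3) * ((∏ l, (((u i).2 l).val : ZMod 3)) * c4 (u i).1)
      = if FullU (u i) then 1 else 0 := by
    intro i
    by_cases hf : FullU (u i)
    · rw [if_pos hf]
      obtain ⟨h4, h1⟩ := hf
      unfold c4
      rw [if_pos h4, Finset.prod_eq_one]
      · ring
      · intro l _
        rw [h1 l]
        rfl
    · rw [if_neg hf]
      unfold FullU at hf
      by_cases h4 : sd (u i).1.1 (u i).1.2 = 4
      · have h5 : ∃ l, (u i).2 l ≠ 1 := by
          by_contra hcon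
          push Not at hcon
          exact hf ⟨h4, hcon⟩
        obtain ⟨l, hl⟩ := h5
        rw [Finset.prod_eq_zero (Finset.mem_univ l)]
        · ring
        · have : (u i).2 l = 0 := by
            have h6 := ((u i).2 l).isLt
            have h7 : ((u i).2 l).val ≠ 1 := fun h8 => hl (Fin.ext h8)
            exact Fin.ext (by show ((u i).2 l).val = 0; omega)
          rw [this]
          rfl
      · unfold c4
        rw [if_neg h4]
        ring
  simp only [h]
  rw [Finset.sum_ite, Finset.sum_const_zero, add_zero, Finset.sum_const, nsmul_eq_mul, mul_one]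

lemma inD_of {r : ℕ} {ι : Type} [Fintype ι] [DecidableEq ι] (g : ι → ℕ)
    (hg : Function.Injective g) (u : ι → Om1 r)
    (h3 : ¬ 3 ∣ (Finset.univ.filter (fun i => FullU (u i))).card) :
    InD r (Nn (fun i => Lam ((r + 1) * g i)) (fun l i => Lam ((r + 1) * g i + (l + 1)))
      (fun i => (u i).1) (fun l i => (u i).2 l)) := by
  classical
  obtain ⟨M, hM⟩ : ∃ M, ∀ i, g i < M := by
    refine ⟨∑ i, g i + 1, fun i => ?_⟩
    have := Finset.single_le_sum (f := g) (fun _ _ => Nat.zero_le _) (Finset.mem_univ i)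
    omega
  set s : ℕ → ℕ → ℕ := Function.extend g (fun i => dg (u i)) 0 with hs
  have hsg : ∀ i, s (g i) = dg (u i) := fun i => hg.extend_apply _ _ i
  have hs0 : ∀ i, (¬ ∃ a, g a = i) → s i = 0 := fun i hi => Function.extend_apply' _ _ _ hi
  refine ⟨M, s, ⟨?_, ?_⟩, ?_, ?_⟩
  · intro i
    by_cases hi : ∃ a, g a = i
    · obtain ⟨a, rfl⟩ := hi
      rw [hsg, dg_zero]
      exact sd_vals (u a).1
    · rw [hs0 i hi]
      exact Or.inl rfl
  · intro i l hl
    by_cases hi : ∃ a, g a = i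
    · obtain ⟨a, rfl⟩ := hi
      rw [hsg]
      exact dg_01 _ _ hl
    · rw [hs0 i hi]
      exact Or.inl rfl
  · have e : {i : ℕ // i < M ∧ Full r s i} ≃ {i : ι // FullU (u i)} := by
      symm
      apply Equiv.ofBijective (fun i : {i : ι // FullU (u i)} =>
        (⟨g i, hM i, by
          unfold Full
          rw [hsg]
          exact (full_dg _).2 i.2⟩ : {i : ℕ // i < M ∧ Full r s i}))
      constructor
      · intro a b hab
        have := congrArg Subtype.val hab
        exact Subtype.ext (hg this)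
      · rintro ⟨i, hi, hf⟩
        have h1 : ∃ a, g a = i := by
          by_contra hcon
          unfold Full at hf
          rw [hs0 i hcon] at hf
          simp at hf
        obtain ⟨a, rfl⟩ := h1
        unfold Full at hf
        rw [hsg] at hf
        exact ⟨⟨a, (full_dg _).1 hf⟩, rfl⟩
    rw [Nat.card_congr e, Nat.card_eq_fintype_card, Fintype.card_subtype]
    exact h3
  · have h1 : ∀ i ∈ range M, i ∉ Finset.univ.image g →
        ∑ l ∈ range (r + 1), s i l * Lam ((r + 1) * i + l) = 0 := by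
      intro i _ hi
      apply Finset.sum_eq_zero
      intro l _
      rw [hs0 i (by
        rintro ⟨a, rfl⟩
        exact hi (Finset.mem_image_of_mem _ (Finset.mem_univ a)))]
      simp
    have h2 : Finset.univ.image g ⊆ range M := by
      intro i hi
      obtain ⟨a, _, rfl⟩ := Finset.mem_image.1 hi
      exact Finset.mem_range.2 (hM a)
    rw [← Finset.sum_subset h2 h1, Finset.sum_image (fun a _ b _ h => hg h)]
    unfold Nn
    rw [Finset.sum_comm, ← Finset.sum_add_distrib]
    apply Finset.sum_congr rfl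
    intro a _
    rw [Finset.sum_range_succ', hsg, dg_zero, add_zero, add_comm]
    congr 1
    rw [← Fin.sum_univ_eq_sum_range (fun l => dg (u a) (l + 1) * Lam ((r + 1) * g a + (l + 1))) r]
    apply Finset.sum_congr rfl
    intro l _
    rw [dg_succ]

theorem positivity_q {X : Type*} [MeasurableSpace X] (μ : Measure X) [IsProbabilityMeasure μ]
    {U : X → X} {A : Set X} (hU : MeasurePreserving U μ μ) (hA : MeasurableSet A)
    (hpos : 0 < μ A) (r : ℕ) : ∃ N, InD r N ∧ 0 < nuq μ U A (r + 3) N := by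
  classical
  by_contra hcon
  push Not at hcon
  have hzero : ∀ N, InD r N → nuq μ U A (r + 3) N = 0 := fun N hN =>
    le_antisymm (hcon N hN) (nuq_nonneg μ A _ N)
  set δ : ℝ := μ.real A with hδdef
  have hδ : 0 < δ := by
    rw [hδdef, Measure.real]
    exact ENNReal.toReal_pos hpos.ne' (measure_ne_top μ A)
  obtain ⟨d, hd⟩ := Pool.Agent.Helper903.DHJ.ldhj (Fin (r + 3)) (δ / 2) (by linarith)
  set c : ℝ := δ / 2 / (r + 4) ^ d with hc
  have hcpos : 0 < c := by positivity
  obtain ⟨m, hm⟩ : ∃ m : ℕ, (rho r) ^ m < c := exists_pow_lt_of_lt_one hcpos (rho_lt_one r)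
  let idx : Fin d × Fin m → ℕ := fun p => (finProdFinEquiv p : ℕ)
  have hidx : Function.Injective idx := by
    intro p q hpq
    exact finProdFinEquiv.injective (Fin.ext hpq)
  let nd : (Om1 r) → ℕ → ℕ := fun u i =>
    sd u.1.1 u.1.2 * Lam ((r + 1) * i) + ∑ l : Fin r, (u.2 l).val * Lam ((r + 1) * i + (l + 1))
  let ee : (Fin d × Fin m → Om1 r) → Fin d → ℕ := fun t j =>
    ∑ i : Fin m, nd (t (j, i)) (idx (j, i))
  have h1 : ∀ t, δ / 2 ≤ ∑ φ : Fin d → Option (Fin (r + 3)), ind (∃ j, φ j = none) *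
      nuq μ U A (r + 3) (sq φ (ee t)) := by
    intro t
    exact ip_q μ hU hA δ hδ le_rfl (r + 3) d (by omega) hd (ee t)
  have h2 : δ / 2 ≤ ∑ φ : Fin d → Option (Fin (r + 3)), ind (∃ j, φ j = none) *
      avg (fun t => nuq μ U A (r + 3) (sq φ (ee t))) := by
    have h3 : avg (fun _ : Fin d × Fin m → Om1 r => δ / 2) ≤
        avg (fun t => ∑ φ : Fin d → Option (Fin (r + 3)), ind (∃ j, φ j = none) *
      nuq μ U A (r + 3) (sq φ (ee t))) := avg_mono h1
    rw [avg_const, avg_sum] at h3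
    refine h3.trans (le_of_eq ?_)
    apply Finset.sum_congr rfl; intro φ _
    rw [avg_mul_left]
  obtain ⟨φ, hφ⟩ : ∃ φ : Fin d → Option (Fin (r + 3)), c ≤ ind (∃ j, φ j = none) *
      avg (fun t => nuq μ U A (r + 3) (sq φ (ee t))) := by
    by_contra hcon2
    push Not at hcon2
    have h3 : ∑ φ : Fin d → Option (Fin (r + 3)), ind (∃ j, φ j = none) *
      avg (fun t => nuq μ U A (r + 3) (sq φ (ee t))) < ∑ _φ : Fin d → Option (Fin (r + 3)), c :=
      Finset.sum_lt_sum_of_nonempty Finset.univ_nonempty fun φ _ => hcon2 φ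
    have h4 : ∑ _φ : Fin d → Option (Fin (r + 3)), c = δ / 2 := by
      rw [Finset.sum_const, Finset.card_univ, nsmul_eq_mul, Fintype.card_fun]
      simp only [Fintype.card_option, Fintype.card_fin]
      rw [hc]
      push_cast
      have : ((r : ℝ) + 3 + 1) = r + 4 := by ring
      rw [this]
      field_simp
    linarith
  have hline : ∃ j, φ j = none := by
    by_contra hno
    rw [ind_false hno, zero_mul] at hφ
    linarith
  rw [ind_true hline, one_mul] at hφ
  obtain ⟨j0, hj0⟩ := hline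
  -- the relevant coordinates
  let Q := {p : Fin d × Fin m // φ p.1 = none}
  have hst : ∀ t, sq φ (ee t) = ∑ p : Q, nd (t p) (idx p) := by
    intro t
    unfold sq
    have e1 : ∑ p : Q, nd (t p) (idx p)
        = ∑ p : Fin d × Fin m, if φ p.1 = none then nd (t p) (idx p) else 0 := by
      rw [← Finset.sum_filter]
      exact (Finset.sum_subtype (p := fun p : Fin d × Fin m => φ p.1 = none) _
        (by intro x; simp) (fun p : Fin d × Fin m => nd (t p) (idx p))).symm
    rw [e1, Fintype.sum_prod_type]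
    apply Finset.sum_congr rfl; intro j _
    cases hj : φ j with
    | none => simp [hj, ee]
    | some k => simp [hj]
  have hNn : ∀ u : Q → Om1 r, ∑ p : Q, nd (u p) (idx p)
      = Nn (fun i : Q => Lam ((r + 1) * idx i)) (fun (l : Fin r) (i : Q) => Lam ((r + 1) * idx i + (l + 1)))
        (fun i => (u i).1) (fun l i => (u i).2 l) := by
    intro u
    unfold Nn
    rw [Finset.sum_comm, ← Finset.sum_add_distrib]
  have h5 : avg (fun t => nuq μ U A (r + 3) (sq φ (ee t)))
      = avg (fun u : Q → Om1 r => nuq μ U A (r + 3)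
        (Nn (fun i : Q => Lam ((r + 1) * idx i)) (fun (l : Fin r) (i : Q) => Lam ((r + 1) * idx i + (l + 1)))
        (fun i => (u i).1) (fun l i => (u i).2 l))) := by
    rw [← avg_restrict' (fun p : Fin d × Fin m => φ p.1 = none)
      (fun u : Q → Om1 r => nuq μ U A (r + 3)
        (Nn (fun i : Q => Lam ((r + 1) * idx i)) (fun (l : Fin r) (i : Q) => Lam ((r + 1) * idx i + (l + 1)))
        (fun i => (u i).1) (fun l i => (u i).2 l)))]
    apply avg_congr; intro t
    rw [hst, hNn]
  have h6 := decay_u μ hU r Q (fun i : Q => Lam ((r + 1) * idx i))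
    (fun (l : Fin r) (i : Q) => Lam ((r + 1) * idx i + (l + 1))) (fun _ => 1) (fA A (r + 3))
    (fun j => fA_meas hA _ j) (fun j x => fA_bd A _ j x)
  have h7 : ∀ u : Q → Om1 r, ps (Th r (fun _ => 1) (fun i => (u i).1) (fun l i => (u i).2 l)) *
      Iv μ U (fA A (r + 3)) (Nn (fun i : Q => Lam ((r + 1) * idx i))
        (fun (l : Fin r) (i : Q) => Lam ((r + 1) * idx i + (l + 1)))
        (fun i => (u i).1) (fun l i => (u i).2 l))
      = ((nuq μ U A (r + 3) (Nn (fun i : Q => Lam ((r + 1) * idx i))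
        (fun (l : Fin r) (i : Q) => Lam ((r + 1) * idx i + (l + 1)))
        (fun i => (u i).1) (fun l i => (u i).2 l)) : ℝ) : ℂ) := by
    intro u
    rw [Iv_fA μ hU hA]
    by_cases h3 : 3 ∣ (Finset.univ.filter (fun i => FullU (u i))).card
    · rw [Th_count, (ZMod.natCast_eq_zero_iff _ 3).2 h3, AddChar.map_zero_eq_one, one_mul]
    · rw [hzero _ (inD_of (fun p : Q => idx p) (fun a b hab => Subtype.ext (hidx hab)) u h3)]
      simp
  simp only [h7] at h6
  rw [← Complex.ofReal_sum, Complex.norm_real, Real.norm_of_nonneg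
    (Finset.sum_nonneg fun _ _ => nuq_nonneg μ A _ _)] at h6
  have h8 : avg (fun t => nuq μ U A (r + 3) (sq φ (ee t))) ≤ rho r ^ (Bc (fun _ : Q => (1 : ZMod 3))) := by
    rw [h5]
    unfold avg
    have hcard : (0 : ℝ) < (Fintype.card (Q → Om1 r) : ℝ) := by
      exact_mod_cast Fintype.card_pos
    rw [div_le_iff₀ hcard]
    exact h6
  have h9 : m ≤ Bc (fun _ : Q => (1 : ZMod 3)) := by
    unfold Bc
    simp only [Finset.filter_true, Finset.card_univ]
    have : Fintype.card (Fin m) ≤ Fintype.card Q := by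
      apply Fintype.card_le_of_injective (fun i : Fin m => (⟨(j0, i), hj0⟩ : Q))
      intro a b hab
      simpa using hab
    simpa using this
  have h10 : rho r ^ (Bc (fun _ : Q => (1 : ZMod 3))) ≤ rho r ^ m :=
    pow_le_pow_of_le_one (rho_nonneg r) (rho_lt_one r).le h9
  linarith

end Pool.Agent.V8H34.KR
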