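import Pool.Agent.V8H34.KR.Filt
import Pool.Agent.V8H34.KR.Lim
import Pool.Agent.V8H34.KR.Pos

/-!
Sets of `k`-recurrence and commuting transformations: finite periodic sets in dimension `k = r + 2`
without the patterns `x, x + n e_1, ..., x + n e_k`, for `n` in the digit set.
-/

namespace Pool.Agent.V8H34.KR

open Finset MeasureTheory Pool.Agent.Helper406.Rec

/-! ### the local identity -/

/-- digit groups -/
abbrev Gr (r : ℕ) : Type := Fin (r + 1) → ZMod 9

/-- the steps -/
def Dr (r : ℕ) : Set (Gr r) := {s | s 0 = 0 ∨ s 0 = 1 ∨ s 0 = 3 ∨ s 0 = 4}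

/-- coordinates as homomorphisms -/
def coo (r : ℕ) (l : Fin (r + 1)) : Gr r →+ ZMod 9 := Pi.evalAddMonoidHom (fun _ => ZMod 9) l

def P0 (r : ℕ) (s : Gr r) : ZMod 9 := if s 0 = 4 then 3 else 0

lemma P0_Fl (r : ℕ) : Fl (Dr r) 2 (P0 r) := by
  refine ⟨fun x => g1 (x 0), fun x => ⟨fun y => h1 (x 0) (y 0), fun y => ?_⟩⟩
  intro s hs
  have h := digit_identity (x 0) (y 0) (s 0) hs
  show P0 r s - (g1 ((x + s) 0) - g1 (x 0)) - (h1 (x 0) ((y + s) 0) - h1 (x 0) (y 0)) = 0
  rw [Pi.add_apply, Pi.add_apply]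
  unfold P0
  rw [← h]
  ring

lemma Pr_Fl (r : ℕ) (L : Finset (Fin r)) :
    Fl (Dr r) (2 + L.card) (fun s => (∏ l ∈ L, s l.succ) * P0 r s) := by
  classical
  induction L using Finset.induction_on with
  | empty =>
    refine Fl_congr (fun s _ => ?_) (P0_Fl r)
    simp
  | insert a L ha ih =>
    rw [Finset.card_insert_of_notMem ha, ← add_assoc]
    refine Fl_congr (fun s _ => ?_) (Fl_hom_mul (coo r a.succ) ih)
    show s a.succ * _ = _
    rw [Finset.prod_insert ha]
    ring

theorem local_id (r : ℕ) : ∃ h : Fin (r + 2) → (Fin (r + 2) → Gr r) → ZMod 9,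
    ∀ z : Fin (r + 2) → Gr r, ∀ s ∈ Dr r,
      ∑ j, (h j (Function.update z j (z j + s)) - h j z) = (∏ l : Fin r, s l.succ) * P0 r s := by
  have h : Fl (Dr r) (r + 2) (fun s => (∏ l : Fin r, s l.succ) * P0 r s) := by
    have h1 := Pr_Fl r Finset.univ
    rw [Finset.card_univ, Fintype.card_fin] at h1
    exact Fl_mono (by omega) h1
  exact Fl_rep h

/-! ### the sets -/

/-- the digits of a group -/
def grp (r i x : ℕ) : Gr r := fun l => dig ((r + 1) * i + l) x

section sets
variable {r : ℕ} (h : Fin (r + 2) → (Fin (r + 2) → Gr r) → ZMod 9)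

def Hk (M : ℕ) (j : Fin (r + 2)) (x : Fin (r + 2) → ℕ) : ZMod 9 :=
  ∑ i ∈ range M, h j (fun a => grp r i (x a))

def AK (M : ℕ) (c : Fin (r + 2) → ZMod 9) (x : Fin (r + 2) → ZMod (Lam ((r + 1) * M))) : Prop :=
  (∀ a, GoodAll ((r + 1) * M) (x a).val) ∧ ∀ j, Hk h M j (fun a => (x a).val) = c j

lemma avg_good (K : ℕ) : 3 / 4 ≤ avg (fun x : ZMod (Lam K) => ind (GoodAll K x.val)) := by
  have h1 := avg_bad K
  have h2 : avg (fun x : ZMod (Lam K) => ind (GoodAll K x.val))
      = 1 - avg (fun x : ZMod (Lam K) => ind (¬ GoodAll K x.val)) := by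
    have h3 : ∀ x : ZMod (Lam K), ind (GoodAll K x.val) = 1 - ind (¬ GoodAll K x.val) := by
      intro x
      rw [ind_not]
      ring
    simp only [h3]
    rw [avg_sub, avg_const]
  rw [h2]
  linarith

lemma avg_pi {Y : Type} [Fintype Y] (n : ℕ) (g : Y → ℝ) :
    avg (fun x : Fin n → Y => ∏ a, g (x a)) = (avg g) ^ n := by
  unfold avg
  rw [div_pow, Fintype.sum_pow, Fintype.card_fun, Fintype.card_fin]
  push_cast
  rfl

lemma exists_dense_k (M : ℕ) : ∃ c : Fin (r + 2) → ZMod 9,
    (3 / 4) ^ (r + 2) / 9 ^ (r + 2) / 2 ≤ avg (fun x => ind (AK h M c x)) := by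
  classical
  by_contra hcon
  push Not at hcon
  have h1 : ∀ x : Fin (r + 2) → ZMod (Lam ((r + 1) * M)),
      ∏ a, ind (GoodAll ((r + 1) * M) (x a).val)
        ≤ ∑ c : Fin (r + 2) → ZMod 9, ind (AK h M c x) := by
    intro x
    by_cases ha : ∀ a, GoodAll ((r + 1) * M) (x a).val
    · rw [Finset.prod_eq_one fun a _ => ind_true (ha a)]
      have h2 : AK h M (fun j => Hk h M j (fun a => (x a).val)) x := ⟨ha, fun j => rfl⟩
      have h3 := Finset.single_le_sum (f := fun c : Fin (r + 2) → ZMod 9 => ind (AK h M c x))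
        (fun c _ => ind_nonneg _) (Finset.mem_univ (fun j => Hk h M j (fun a => (x a).val)))
      rw [ind_true h2] at h3
      exact h3
    · push Not at ha
      obtain ⟨a, ha⟩ := ha
      rw [Finset.prod_eq_zero (Finset.mem_univ a) (ind_false ha)]
      exact Finset.sum_nonneg fun c _ => ind_nonneg _
  have h2 := avg_mono h1
  rw [avg_sum, avg_pi (r + 2) (fun y : ZMod (Lam ((r + 1) * M)) => ind (GoodAll ((r + 1) * M) y.val))]
    at h2
  have h3 : (3 / 4 : ℝ) ^ (r + 2) ≤
      (avg (fun y : ZMod (Lam ((r + 1) * M)) => ind (GoodAll ((r + 1) * M) y.val))) ^ (r + 2) :=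
    pow_le_pow_left₀ (by norm_num) (avg_good _) _
  have h5 : ∑ c : Fin (r + 2) → ZMod 9, avg (fun x => ind (AK h M c x)) <
      ∑ _c : Fin (r + 2) → ZMod 9, ((3 / 4 : ℝ) ^ (r + 2) / 9 ^ (r + 2) / 2) :=
    Finset.sum_lt_sum_of_nonempty Finset.univ_nonempty fun c _ => hcon c
  have h6 : ∑ _c : Fin (r + 2) → ZMod 9, ((3 / 4 : ℝ) ^ (r + 2) / 9 ^ (r + 2) / 2)
      = (3 / 4 : ℝ) ^ (r + 2) / 2 := by
    rw [Finset.sum_const, Finset.card_univ, Fintype.card_fun, ZMod.card, Fintype.card_fin,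
      nsmul_eq_mul]
    push_cast
    field_simp
  have h7 : (0 : ℝ) < (3 / 4 : ℝ) ^ (r + 2) := by positivity
  linarith

end sets

/-- sum over groups -/
lemma sum_groups (b M : ℕ) (F : ℕ → ℕ) :
    ∑ p ∈ range (b * M), F p = ∑ i ∈ range M, ∑ l ∈ range b, F (b * i + l) := by
  induction M with
  | zero => simp
  | succ M ih =>
    rw [Nat.mul_succ, Finset.sum_range_add, ih, Finset.sum_range_succ]

/-- normal form of the elements of the digit set below `M` -/
lemma inD_normal {r n M : ℕ} (hn : InD r n) (hM : n < M) :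
    ∃ s : ℕ → ℕ → ℕ, Adm s ∧ ¬ 3 ∣ Nat.card {i : ℕ // i < M ∧ Full r s i} ∧
      n = ∑ i ∈ range M, ∑ l ∈ range (r + 1), s i l * Lam ((r + 1) * i + l) := by
  classical
  obtain ⟨M', s, ⟨ha, hb⟩, h3, hsum⟩ := hn
  have hbig : ∀ i < M', ∀ l < r + 1, s i l ≠ 0 → i < M := by
    intro i hi l hl hne
    have h1 : s i l * Lam ((r + 1) * i + l) ≤ n := by
      rw [hsum]
      calc s i l * Lam ((r + 1) * i + l) ≤ ∑ l ∈ range (r + 1), s i l * Lam ((r + 1) * i + l) :=
            Finset.single_le_sum (f := fun l => s i l * Lam ((r + 1) * i + l))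
              (fun _ _ => Nat.zero_le _) (Finset.mem_range.2 hl)
        _ ≤ _ := Finset.single_le_sum (f := fun i => ∑ l ∈ range (r + 1), s i l *
              Lam ((r + 1) * i + l)) (fun _ _ => Nat.zero_le _) (Finset.mem_range.2 hi)
    have h2 : Lam ((r + 1) * i + l) ≤ s i l * Lam ((r + 1) * i + l) :=
      Nat.le_mul_of_pos_left _ (Nat.pos_of_ne_zero hne)
    have h4 := le_Lam ((r + 1) * i + l)
    have h5 : i ≤ (r + 1) * i + l := by nlinarith
    omega
  refine ⟨fun i l => if i < M' then s i l else 0, ⟨?_, ?_⟩, ?_, ?_⟩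
  · intro i
    by_cases hi : i < M'
    · simp only [hi, if_true]; exact ha i
    · simp [hi]
  · intro i l hl
    by_cases hi : i < M'
    · simp only [hi, if_true]; exact hb i l hl
    · simp [hi]
  · have e : {i : ℕ // i < M ∧ Full r (fun i l => if i < M' then s i l else 0) i}
        ≃ {i : ℕ // i < M' ∧ Full r s i} := by
      apply Equiv.subtypeEquivRight
      intro i
      unfold Full
      constructor
      · rintro ⟨_, h4, h1⟩
        by_cases hi : i < M'
        · simp only [hi, if_true] at h4 h1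
          exact ⟨hi, h4, h1⟩
        · simp [hi] at h4
      · rintro ⟨hi, h4, h1⟩
        refine ⟨hbig i hi 0 (by omega) (by omega), ?_, ?_⟩
        · simp only [hi, if_true]; exact h4
        · simp only [hi, if_true]; exact h1
    rw [Nat.card_congr e]
    exact h3
  · rw [hsum]
    have h5 : ∀ i, ∑ l ∈ range (r + 1), (if i < M' then s i l else 0) * Lam ((r + 1) * i + l)
        = if i < M' then ∑ l ∈ range (r + 1), s i l * Lam ((r + 1) * i + l) else 0 := by
      intro i
      by_cases hi : i < M' <;> simp [hi]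
    simp only [h5]
    rw [← Finset.sum_filter]
    symm
    apply Finset.sum_subset
    · intro i hi
      exact Finset.mem_range.2 (Finset.mem_filter.1 hi).2
    · intro i hi hni
      rw [Finset.mem_range] at hi
      apply Finset.sum_eq_zero
      intro l hl
      rw [Finset.mem_range] at hl
      have : s i l = 0 := by
        by_contra hne
        exact hni (Finset.mem_filter.2 ⟨Finset.mem_range.2 (hbig i hi l hl hne), hi⟩)
      rw [this, zero_mul]

lemma prod_P0 {r : ℕ} (s : ℕ → ℕ → ℕ) (hs : Adm s) (i : ℕ) :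
    (∏ l : Fin r, ((fun l : Fin (r + 1) => ((s i l : ℕ) : ZMod 9)) l.succ)) *
      P0 r (fun l : Fin (r + 1) => ((s i l : ℕ) : ZMod 9))
      = by classical exact if Full r s i then 3 else 0 := by
  classical
  have hz : ((s i 0 : ℕ) : ZMod 9) = 4 ↔ s i 0 = 4 := by
    rcases hs.1 i with h | h | h | h <;> simp [h] <;> decide
  by_cases hf : Full r s i
  · rw [if_pos hf]
    unfold P0
    rw [if_pos (by
      show ((s i ((0 : Fin (r + 1)) : ℕ) : ℕ) : ZMod 9) = 4
      exact hz.2 hf.1), Finset.prod_eq_one, one_mul]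
    intro l _
    show ((s i ((l.succ : Fin (r + 1)) : ℕ) : ℕ) : ZMod 9) = 1
    rw [Fin.val_succ, hf.2 (l + 1) (by omega) (by omega)]
    simp
  · rw [if_neg hf]
    unfold Full at hf
    by_cases h4 : s i 0 = 4
    · have h5 : ∃ l, 0 < l ∧ l < r + 1 ∧ s i l ≠ 1 := by
        by_contra hcon
        push Not at hcon
        exact hf ⟨h4, hcon⟩
      obtain ⟨l, hl, hr, hne⟩ := h5
      obtain ⟨l', rfl⟩ : ∃ l', l = l' + 1 := ⟨l - 1, by omega⟩
      have h0 : s i (l' + 1) = 0 := by
        rcases hs.2 i (l' + 1) hl with h | h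
        · exact h
        · exact absurd h hne
      rw [Finset.prod_eq_zero (Finset.mem_univ (⟨l', by omega⟩ : Fin r)), zero_mul]
      show ((s i (((⟨l', by omega⟩ : Fin r).succ : Fin (r + 1)) : ℕ) : ℕ) : ZMod 9) = 0
      rw [Fin.val_succ, h0]
      simp
    · unfold P0
      rw [if_neg (by
        show ¬ ((s i ((0 : Fin (r + 1)) : ℕ) : ℕ) : ZMod 9) = 4
        intro h6
        exact h4 (hz.1 h6)), mul_zero]

theorem no_pattern {r : ℕ} (h : Fin (r + 2) → (Fin (r + 2) → Gr r) → ZMod 9)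
    (hid : ∀ z : Fin (r + 2) → Gr r, ∀ s ∈ Dr r,
      ∑ j, (h j (Function.update z j (z j + s)) - h j z) = (∏ l : Fin r, s l.succ) * P0 r s)
    (M : ℕ) (c : Fin (r + 2) → ZMod 9) (n : ℕ) (hn : InD r n) (hM : n < M)
    (x : Fin (r + 2) → ZMod (Lam ((r + 1) * M))) :
    ¬ (AK h M c x ∧ ∀ a, AK h M c (Function.update x a (x a + n))) := by
  classical
  rintro ⟨⟨ha, hc⟩, hall⟩
  obtain ⟨s, hs, h3, hsum⟩ := inD_normal hn hM
  have hs4 : ∀ i l, s i l ≤ 4 := by
    intro i l
    rcases Nat.eq_zero_or_pos l with h0 | h0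
    · subst h0
      rcases hs.1 i with h | h | h | h <;> omega
    · rcases hs.2 i l h0 with h | h <;> omega
  have hval : ∀ y : ZMod (Lam ((r + 1) * M)), (y + (n : ZMod (Lam ((r + 1) * M)))).val = (y.val + n) % Lam ((r + 1) * M) := by
    intro y
    rw [ZMod.val_add, ZMod.val_natCast, Nat.add_mod_mod]
  have hn2 : n = ∑ p ∈ range ((r + 1) * M), s (p / (r + 1)) (p % (r + 1)) * Lam p := by
    rw [sum_groups, hsum]
    apply Finset.sum_congr rfl
    intro i _
    apply Finset.sum_congr rfl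
    intro l hl
    rw [Finset.mem_range] at hl
    have e1 : ((r + 1) * i + l) / (r + 1) = i := by
      rw [Nat.mul_add_div (by omega), Nat.div_eq_of_lt hl, add_zero]
    have e2 : ((r + 1) * i + l) % (r + 1) = l := by
      rw [Nat.mul_add_mod, Nat.mod_eq_of_lt hl]
    rw [e1, e2]
  have hdig : ∀ y : ZMod (Lam ((r + 1) * M)), GoodAll ((r + 1) * M) y.val → ∀ i < M,
      grp r i (y + (n : ZMod (Lam ((r + 1) * M)))).val
        = grp r i y.val + fun l : Fin (r + 1) => ((s i l : ℕ) : ZMod 9) := by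
    intro y hy i hi
    funext l
    have hp : (r + 1) * i + l < (r + 1) * M := by
      have h1 : (r + 1) * i + l < (r + 1) * (i + 1) := by
        have := l.isLt
        rw [Nat.mul_succ]
        omega
      exact lt_of_lt_of_le h1 (Nat.mul_le_mul_left _ hi)
    show dig ((r + 1) * i + l) (y + (n : ZMod (Lam ((r + 1) * M)))).val = _
    rw [hval, dig_mod _ ((r + 1) * M) _ hp]
    have h2 := dig_add ((r + 1) * M) ((r + 1) * i + l) y.val (fun p => s (p / (r + 1)) (p % (r + 1)))
      (fun p => hs4 _ _) hp (hy _ hp)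
    rw [← hn2] at h2
    rw [h2]
    have e1 : ((r + 1) * i + (l : ℕ)) / (r + 1) = i := by
      rw [Nat.mul_add_div (by omega), Nat.div_eq_of_lt l.isLt, add_zero]
    have e2 : ((r + 1) * i + (l : ℕ)) % (r + 1) = l := by
      rw [Nat.mul_add_mod, Nat.mod_eq_of_lt l.isLt]
    simp only [e1, e2]
    rfl
  set z : ℕ → Fin (r + 2) → Gr r := fun i a => grp r i (x a).val with hz
  set sv : ℕ → Gr r := fun i l => ((s i l : ℕ) : ZMod 9) with hsv
  have e1 : ∑ j, (Hk h M j (fun a => ((Function.update x j (x j + n)) a).val)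
      - Hk h M j (fun a => (x a).val)) = 0 := by
    apply Finset.sum_eq_zero
    intro j _
    rw [(hall j).2 j, hc j, sub_self]
  have e2 : ∀ j, Hk h M j (fun a => ((Function.update x j (x j + n)) a).val)
      = ∑ i ∈ range M, h j (Function.update (z i) j (z i j + sv i)) := by
    intro j
    unfold Hk
    apply Finset.sum_congr rfl
    intro i hi
    rw [Finset.mem_range] at hi
    congr 1
    funext a
    show grp r i ((Function.update x j (x j + n)) a).val = _
    by_cases haj : a = j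
    · subst haj
      rw [Function.update_self, Function.update_self, hdig (x a) (ha a) i hi]
    · rw [Function.update_of_ne haj, Function.update_of_ne haj]
  have e3 : ∀ j, Hk h M j (fun a => (x a).val) = ∑ i ∈ range M, h j (z i) := fun j => rfl
  simp only [e2, e3, ← Finset.sum_sub_distrib] at e1
  rw [Finset.sum_comm] at e1
  have hD : ∀ i, sv i ∈ Dr r := by
    intro i
    show ((s i ((0 : Fin (r + 1)) : ℕ) : ℕ) : ZMod 9) = 0 ∨ ((s i ((0 : Fin (r + 1)) : ℕ) : ℕ) : ZMod 9) = 1
      ∨ ((s i ((0 : Fin (r + 1)) : ℕ) : ℕ) : ZMod 9) = 3 ∨ ((s i ((0 : Fin (r + 1)) : ℕ) : ℕ) : ZMod 9) = 4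
    rw [Fin.val_zero]
    rcases hs.1 i with h | h | h | h <;> simp [h]
  have e4 : ∀ i ∈ range M, ∑ j, (h j (Function.update (z i) j (z i j + sv i)) - h j (z i))
      = if Full r s i then 3 else 0 := by
    intro i _
    rw [hid (z i) (sv i) (hD i)]
    exact prod_P0 s hs i
  rw [Finset.sum_congr rfl e4, ← Finset.sum_filter, Finset.sum_const] at e1
  have e5 : Nat.card {i : ℕ // i < M ∧ Full r s i} = ((range M).filter (fun i => Full r s i)).card := by
    have e : {i : ℕ // i < M ∧ Full r s i} ≃ {i : ℕ // i ∈ (range M).filter (fun i => Full r s i)} :=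
      Equiv.subtypeEquivRight (fun i => by simp)
    rw [Nat.card_congr e, Nat.card_eq_fintype_card, Fintype.card_coe]
  rw [e5] at h3
  have e6 : ((((range M).filter (fun i => Full r s i)).card * 3 : ℕ) : ZMod 9) = 0 := by
    rw [nsmul_eq_mul] at e1
    push_cast
    exact e1
  rw [ZMod.natCast_eq_zero_iff] at e6
  apply h3
  omega

end Pool.Agent.V8H34.KR
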